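import Pool.Agent.R130.AV.Defs

/-!
# Piece CHAIN of project AV: conditional probabilities at least `p`
-/

set_option autoImplicit false

open MeasureTheory Finset

namespace Pool.Agent.R130.AV

namespace ChainAux

theorem Xw_true {k T j t : ℕ} {ω : ℕ → Inn} : Xw k T j t ω = true ↔ st k ω (T + 1 + t) = St.pos j := by
  unfold Xw
  simp

theorem Xw_false {k T j t : ℕ} {ω : ℕ → Inn} : Xw k T j t ω = false ↔ st k ω (T + 1 + t) ≠ St.pos j := by
  unfold Xw
  simp

/-- the words of walker `j` -/
def BB (k T j : ℕ) (x : ℕ → Bool) (m : ℕ) : Set (ℕ → Inn) := {ω | ∀ i < m, Xw k T j i ω = x i}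

theorem BB_anti (k T j : ℕ) (x : ℕ → Bool) {m m' : ℕ} (h : m ≤ m') : BB k T j x m' ⊆ BB k T j x m :=
  fun _ hω i hi => hω i (lt_of_lt_of_le hi h)

theorem BB_loc (hD : StmDet) (k T j : ℕ) (x : ℕ → Bool) (m n : ℕ) (hn : m = 0 ∨ T + m ≤ n) (ω ω' : ℕ → Inn)
    (h : ∀ i < n, ω i = ω' i) : ω ∈ BB k T j x m ↔ ω' ∈ BB k T j x m := by
  have key : ∀ i < m, Xw k T j i ω = Xw k T j i ω' := by
    intro i hi
    have hn' : T + m ≤ n := by
      rcases hn with h0 | h0
      · omega
      · exact h0
    unfold Xw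
    rw [(hD k ω).1 ω' (T + 1 + i) (fun i' hi' => h i' (by omega))]
  constructor
  · intro hω i hi
    rw [← key i hi]; exact hω i hi
  · intro hω i hi
    rw [key i hi]; exact hω i hi

/-- case A: the echo event -/
def EA (k T j : ℕ) (x : ℕ → Bool) (i τ : ℕ) : Set (ℕ → Inn) :=
  {ω | ω ∈ BB k T j x (i + 1) ∧ ∀ b < τ, ω (T + 1 + i + b) ∈
    (if b = 0 then {i : Inn | i.1 = false ∧ i.2.2 = τ} else {i : Inn | i.1 = false})}

theorem EA_sub (hD : StmDet) (k T j : ℕ) (x : ℕ → Bool) (i τ : ℕ) (hτ : 1 ≤ τ) (hx : x i = true)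
    (hlast : ∀ i', i < i' → i' < i + τ → x i' = false) :
    EA k T j x i τ ⊆ {ω | (∀ i' < i + τ, Xw k T j i' ω = x i') ∧ Xw k T j (i + τ) ω = true} := by
  rintro ω ⟨hB, hC⟩
  have hst : st k ω (T + 1 + i) = St.pos j := by
    rw [← Xw_true, hB i (by omega)]; exact hx
  have h0 := hC 0 (by omega)
  rw [if_pos rfl] at h0
  obtain ⟨hf, hs⟩ := h0
  have hf' : (ω (T + 1 + i)).1 = false := by simpa using hf
  have hs' : (ω (T + 1 + i)).2.2 = τ := by simpa using hs
  have hb : ∀ b, 1 ≤ b → b < τ → (ω (T + 1 + i + b)).1 = false := by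
    intro b hb1 hb2
    have := hC b hb2
    rw [if_neg (by omega)] at this
    exact this
  obtain ⟨e1, e2⟩ := (hD k ω).2.2.1 (T + 1 + i) j τ hτ hst hf' hs' hb
  refine ⟨fun i' hi' => ?_, ?_⟩
  · by_cases h : i' ≤ i
    · exact hB i' (by omega)
    · push Not at h
      rw [hlast i' h hi', Xw_false]
      have := e2 (i' - i) (by omega) (by omega) j
      rwa [show T + 1 + i + (i' - i) = T + 1 + i' by omega] at this
  · rw [Xw_true, ← add_assoc]; exact e1

/-- case B: the run event of age `a` -/
def RA (k T j : ℕ) (x : ℕ → Bool) (m a : ℕ) : Set (ℕ → Inn) :=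
  {ω | ω ∈ BB k T j x (m - a) ∧ ∀ b < a + 1, ω (T + m - a + b) ∈
    (if b = 0 then {i : Inn | i.1 = true} else if b = 1 then {i : Inn | i.1 = false ∧ i.2.1 = j + 1 - a}
      else {i : Inn | i.1 = false ∧ i.2.2 = 0})}

theorem RA_true {k T j : ℕ} {x : ℕ → Bool} {m a : ℕ} {ω : ℕ → Inn} (h : ω ∈ RA k T j x m a) :
    (ω (T + m - a)).1 = true := by
  have := h.2 0 (by omega)
  rw [if_pos rfl] at this
  simpa using this

theorem RA_false {k T j : ℕ} {x : ℕ → Bool} {m a : ℕ} {ω : ℕ → Inn} (h : ω ∈ RA k T j x m a) (b : ℕ)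
    (hb1 : 1 ≤ b) (hb2 : b ≤ a) : (ω (T + m - a + b)).1 = false := by
  have := h.2 b (by omega)
  rw [if_neg (by omega)] at this
  by_cases hb : b = 1
  · rw [if_pos hb] at this; exact this.1
  · rw [if_neg hb] at this; exact this.1

theorem RA_sub (hD : StmDet) (k T j : ℕ) (hj : j < k) (x : ℕ → Bool) (m a : ℕ) (ha : 1 ≤ a) (haT : a ≤ T)
    (haj : a ≤ j + 1) (hx : ∀ i < m, m ≤ i + T → x i = false) :
    RA k T j x m a ⊆ {ω | (∀ i < m, Xw k T j i ω = x i) ∧ Xw k T j m ω = true} := by
  intro ω hω
  have h1 := RA_true hω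
  have h2 : (ω (T + m - a + 1)).1 = false := RA_false hω 1 le_rfl ha
  have h3 : (ω (T + m - a + 1)).2.1 = j + 1 - a := by
    have := hω.2 1 (by omega)
    rw [if_neg (by omega), if_pos rfl] at this
    exact this.2
  have h4 : ∀ b, 2 ≤ b → b ≤ a → (ω (T + m - a + b)).1 = false ∧ (ω (T + m - a + b)).2.2 = 0 := by
    intro b hb1 hb2
    have := hω.2 b (by omega)
    rw [if_neg (by omega), if_neg (by omega)] at this
    exact this
  obtain ⟨e1, e2⟩ := (hD k ω).2.2.2 (T + m - a) (j + 1 - a) a ha (by omega) h1 h2 h3 h4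
  refine ⟨fun i hi => ?_, ?_⟩
  · by_cases h : i < m - a
    · exact hω.1 i h
    · rw [hx i hi (by omega), Xw_false]
      by_cases hb : i + a = m
      · rw [show T + 1 + i = T + m - a + 1 by omega, e1]
        exact fun h => by cases h
      · rw [show T + 1 + i = T + m - a + 1 + (i + a - m) by omega, e2 (i + a - m) (by omega) (by omega)]
        intro h
        injection h with h
        omega
  · rw [Xw_true, show T + 1 + m = T + m - a + 1 + a by omega, e2 a ha le_rfl]
    congr 1
    omega

theorem RA_disj {k T j : ℕ} {x : ℕ → Bool} {m a a' : ℕ} (h : a < a') (ha' : a' ≤ T) :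
    Disjoint (RA k T j x m a) (RA k T j x m a') := by
  rw [Set.disjoint_left]
  intro ω h1 h2
  have e1 := RA_true h1
  have e2 := RA_false h2 (a' - a) (by omega) (by omega)
  rw [show T + m - a' + (a' - a) = T + m - a by omega, e1] at e2
  exact absurd e2 (by simp)

end ChainAux

open ChainAux

theorem chain (hI : StmInd) (hW : StmWs) (hD : StmDet) : StmChain := by
  intro k T p δ ρ e W
  obtain ⟨w0, wsum, wT, wF, wJ, wE⟩ := hW k T p δ ρ e W
  obtain ⟨μ, hμ, hA⟩ := hI (wt k T δ ρ e) w0 wsum
  refine ⟨μ, hμ, ?_, ?_⟩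
  · intro j t
    refine measurable_to_bool ?_
    refine (hA (T + 1 + t) _ fun ω ω' h => ?_).1
    simp only [Set.mem_preimage, Set.mem_singleton_iff, Xw_true]
    rw [(hD k ω).1 ω' (T + 1 + t) h]
  · intro j hj m x
    have hp := W.hp
    have hδ1 : 0 ≤ 1 - δ := by linarith [W.hδ1]
    change p * μ.real (BB k T j x m) ≤ _
    by_cases hcase : ∃ i < m, x i = true ∧ m ≤ i + T
    · -- case A
      classical
      let P : ℕ → Prop := fun i => i < m ∧ x i = true ∧ m ≤ i + T
      obtain ⟨i0, hi0m, hi0x, hi0T⟩ := hcase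
      have hP0 : P i0 := ⟨hi0m, hi0x, hi0T⟩
      let i := Nat.findGreatest P m
      have hPi : P i := Nat.findGreatest_spec (P := P) hi0m.le hP0
      have hmax : ∀ i', i < i' → i' < m → x i' = false := by
        intro i' h1 h2
        have hn := Nat.findGreatest_is_greatest (P := P) h1 h2.le
        by_contra hne
        exact hn ⟨h2, by simpa using hne, by have := hPi.2.2; omega⟩
      obtain ⟨him, hix, hiT⟩ := hPi
      obtain ⟨τ', hτ'⟩ : ∃ τ', m = i + (τ' + 1) := ⟨m - i - 1, by omega⟩
      have hsub := EA_sub hD k T j x i (τ' + 1) (by omega) hix (fun i' h1 h2 => hmax i' h1 (by omega))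
      rw [← hτ'] at hsub
      have hmono : μ.real (EA k T j x i (τ' + 1)) ≤
          μ.real {ω | (∀ i < m, Xw k T j i ω = x i) ∧ Xw k T j m ω = true} := measureReal_mono hsub
      refine le_trans ?_ hmono
      have hval := (hA (T + 1 + i) (BB k T j x (i + 1))
        (fun ω ω' h => BB_loc hD k T j x (i + 1) (T + 1 + i) (Or.inr (by omega)) ω ω' h)).2 (τ' + 1)
        (fun b => if b = 0 then {i : Inn | i.1 = false ∧ i.2.2 = τ' + 1} else {i : Inn | i.1 = false})
      have hval' : μ.real (EA k T j x i (τ' + 1)) = μ.real (BB k T j x (i + 1)) *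
          ((1 - δ) ^ τ' * ((1 - δ) * e (τ' + 1))) := by
        refine hval.trans ?_
        congr 1
        rw [Finset.prod_range_succ']
        congr 1
        · rw [Finset.prod_congr rfl (g := fun _ => 1 - δ), Finset.prod_const, Finset.card_range]
          intro b _
          rw [if_neg (by omega)]
          exact wF
        · rw [if_pos rfl]
          exact wE (τ' + 1) (by omega)
      rw [hval']
      have hecho := W.echo (τ' + 1) (by omega) (by omega)
      have hBm : μ.real (BB k T j x m) ≤ μ.real (BB k T j x (i + 1)) :=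
        measureReal_mono (BB_anti k T j x (by omega))
      calc p * μ.real (BB k T j x m) ≤ p * μ.real (BB k T j x (i + 1)) :=
            mul_le_mul_of_nonneg_left hBm hp
        _ = μ.real (BB k T j x (i + 1)) * p := mul_comm _ _
        _ ≤ μ.real (BB k T j x (i + 1)) * ((1 - δ) ^ (τ' + 1) * e (τ' + 1)) :=
            mul_le_mul_of_nonneg_left hecho measureReal_nonneg
        _ = _ := by rw [pow_succ]; ring
    · -- case B
      push Not at hcase
      have hx : ∀ i < m, m ≤ i + T → x i = false := by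
        intro i hi hiT
        by_contra hne
        have := hcase i hi (by simpa using hne)
        omega
      let S := Icc 1 (min T (j + 1))
      have hS : ∀ a ∈ S, 1 ≤ a ∧ a ≤ T ∧ a ≤ j + 1 := by
        intro a ha
        have := Finset.mem_Icc.1 ha
        exact ⟨this.1, by omega, by omega⟩
      have hsub : (⋃ a ∈ S, RA k T j x m a) ⊆
          {ω | (∀ i < m, Xw k T j i ω = x i) ∧ Xw k T j m ω = true} := by
        refine Set.iUnion₂_subset fun a ha => ?_
        obtain ⟨h1, h2, h3⟩ := hS a ha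
        exact RA_sub hD k T j hj x m a h1 h2 h3 hx
      have hloc : ∀ a ∈ S, ∀ ω ω' : ℕ → Inn, (∀ i < T + m - a, ω i = ω' i) →
          (ω ∈ BB k T j x (m - a) ↔ ω' ∈ BB k T j x (m - a)) := by
        intro a ha ω ω' h
        obtain ⟨h1, h2, h3⟩ := hS a ha
        exact BB_loc hD k T j x (m - a) (T + m - a) (by omega) ω ω' h
      have hmeas : ∀ a ∈ S, MeasurableSet (RA k T j x m a) := by
        intro a ha
        obtain ⟨h1, h2, h3⟩ := hS a ha
        refine (hA (T + m + 1) _ fun ω ω' h => ?_).1
        unfold RA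
        simp only [Set.mem_ofPred_eq]
        rw [hloc a ha ω ω' (fun i hi => h i (by omega))]
        refine and_congr_right fun _ => forall_congr' fun b => forall_congr' fun hb => ?_
        rw [h (T + m - a + b) (by omega)]
      have hval : ∀ a ∈ S, μ.real (RA k T j x m a) = μ.real (BB k T j x (m - a)) *
          (δ * ((1 - δ) * ρ (j + 1 - a)) * ((1 - δ) * e 0) ^ (a - 1)) := by
        intro a ha
        obtain ⟨h1, h2, h3⟩ := hS a ha
        have hv := (hA (T + m - a) (BB k T j x (m - a)) (hloc a ha)).2 (a + 1)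
          (fun b => if b = 0 then {i : Inn | i.1 = true} else
            if b = 1 then {i : Inn | i.1 = false ∧ i.2.1 = j + 1 - a}
            else {i : Inn | i.1 = false ∧ i.2.2 = 0})
        refine hv.trans ?_
        congr 1
        obtain ⟨a', rfl⟩ : ∃ a', a = a' + 1 := ⟨a - 1, by omega⟩
        rw [Finset.prod_range_succ', Finset.prod_range_succ']
        rw [Finset.prod_congr rfl (g := fun _ => (1 - δ) * e 0), Finset.prod_const, Finset.card_range]
        · rw [if_pos rfl, if_neg (by omega), if_pos (by omega), wT, wJ _ (by omega)]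
          rw [Nat.add_sub_cancel]
          ring
        · intro b _
          rw [if_neg (by omega), if_neg (by omega)]
          exact wE 0 (by omega)
      have hsum : μ.real (⋃ a ∈ S, RA k T j x m a) = ∑ a ∈ S, μ.real (RA k T j x m a) := by
        refine measureReal_biUnion_finset ?_ hmeas
        intro a ha a' ha' hne
        have h1 := hS a (Finset.mem_coe.1 ha)
        have h2 := hS a' (Finset.mem_coe.1 ha')
        rcases lt_or_gt_of_ne hne with h | h
        · exact RA_disj h h2.2.1
        · exact (RA_disj h h1.2.1).symm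
      refine le_trans ?_ (measureReal_mono hsub)
      rw [hsum]
      have hrun := W.run j hj
      calc p * μ.real (BB k T j x m)
          ≤ (∑ a ∈ S, δ * ((1 - δ) * ρ (j + 1 - a)) * ((1 - δ) * e 0) ^ (a - 1)) *
              μ.real (BB k T j x m) := mul_le_mul_of_nonneg_right hrun measureReal_nonneg
        _ = ∑ a ∈ S, (δ * ((1 - δ) * ρ (j + 1 - a)) * ((1 - δ) * e 0) ^ (a - 1)) *
              μ.real (BB k T j x m) := Finset.sum_mul _ _ _
        _ ≤ ∑ a ∈ S, μ.real (RA k T j x m a) := by
            refine Finset.sum_le_sum fun a ha => ?_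
            rw [hval a ha, mul_comm (μ.real (BB k T j x (m - a)))]
            refine mul_le_mul_of_nonneg_left (measureReal_mono (BB_anti k T j x (by omega))) ?_
            have := W.hρ (j + 1 - a)
            have := W.he 0
            have := W.hδ0
            positivity

end Pool.Agent.R130.AV
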