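import Mathlib

/-!
# 1-avoidance couplings of Bernoulli sequences: definitions and statements of the pieces
-/

set_option autoImplicit false

open MeasureTheory Finset

namespace Pool.Agent.R130.AV

/-- A 1-avoidance coupling of `k` Bernoulli(p) walkers: `X j t` is the position of walker `j`
after his move in round `t` (rounds and walkers are numbered from `0`; walker `j` moves at the
turn `t * k + j`). Every walker's sequence is i.i.d. Bernoulli(p) (law of all finite words), and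
two turns at distance less than `k` never both produce a `1`. -/
def Coupling (k : ℕ) (p : ℝ) : Prop :=
  ∃ (Ω : Type) (_ : MeasurableSpace Ω) (μ : Measure Ω) (X : Fin k → ℕ → Ω → Bool),
    IsProbabilityMeasure μ ∧ (∀ j t, Measurable (X j t)) ∧
    (∀ (j : Fin k) (n : ℕ) (y : Fin n → Bool),
      μ.real {ω | ∀ i : Fin n, X j i ω = y i} = ∏ i, (if y i = true then p else 1 - p)) ∧
    (∀ᵐ ω ∂μ, ∀ (t t' : ℕ) (j j' : Fin k), t * k + j < t' * k + j' →
      t' * k + j' < t * k + j + k → ¬ (X j t ω = true ∧ X j' t' ω = true))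

/-- the maximal parameter `p_k` -/
noncomputable def pk (k : ℕ) : ℝ := sSup {p : ℝ | 0 ≤ p ∧ p ≤ 1 ∧ Coupling k p}

/-! ### The state machine -/

/-- states of the driving chain: `fresh` = a reset happened in this round (no walker at 1),
`dead` = no walker at 1 until the next reset, `pos j` = walker `j` is at 1 in this round,
`wait w j` = no walker at 1 in this round, after `w` more rounds walker `j` will be at 1. -/
inductive St where
  | fresh : St
  | dead : St
  | pos : ℕ → St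
  | wait : ℕ → ℕ → St

/-- an innovation: reset or not, starting walker of a new run, delay of the echo (0 = no echo) -/
abbrev Inn := Bool × ℕ × ℕ

/-- one step of the chain -/
def step (k : ℕ) (s : St) (i : Inn) : St :=
  if i.1 = true then St.fresh else
    match s with
    | St.fresh => St.pos i.2.1
    | St.dead => St.dead
    | St.pos j =>
        if i.2.2 = 0 then (if j + 1 < k then St.pos (j + 1) else St.dead)
        else if i.2.2 = 1 then St.pos j else St.wait (i.2.2 - 1) j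
    | St.wait w j => if w ≤ 1 then St.pos j else St.wait (w - 1) j

/-- the state after `n` steps -/
def st (k : ℕ) (ω : ℕ → Inn) : ℕ → St
  | 0 => St.dead
  | n + 1 => step k (st k ω n) (ω n)

/-- the weights: `δ` = probability of a reset, `ρ` = law of the starting walker, `e` = law of the
delay of the echo -/
structure Wt (k T : ℕ) (p δ : ℝ) (ρ e : ℕ → ℝ) : Prop where
  hp : 0 ≤ p
  hδ0 : 0 < δ
  hδ1 : δ < 1
  hρ : ∀ i, 0 ≤ ρ i
  hρs : ∑ i ∈ range k, ρ i = 1
  he : ∀ i, 0 ≤ e i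
  hes : ∑ i ∈ range (T + 1), e i = 1
  echo : ∀ τ : ℕ, 1 ≤ τ → τ ≤ T → p ≤ (1 - δ) ^ τ * e τ
  run : ∀ j : ℕ, j < k → p ≤ ∑ a ∈ Icc 1 (min T (j + 1)),
    δ * ((1 - δ) * ρ (j + 1 - a)) * ((1 - δ) * e 0) ^ (a - 1)

/-- the weight of an innovation -/
noncomputable def wt (k T : ℕ) (δ : ℝ) (ρ e : ℕ → ℝ) (i : Inn) : ℝ :=
  (if i.1 = true then δ else 1 - δ) * (if i.2.1 < k then ρ i.2.1 else 0) *
    (if i.2.2 ≤ T then e i.2.2 else 0)

/-! ### Statements of the pieces -/

/-- IND: the infinite product of a law on the innovations -/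
def StmInd : Prop :=
  ∀ w : Inn → ℝ, (∀ i, 0 ≤ w i) → HasSum w 1 →
    ∃ μ : Measure (ℕ → Inn), IsProbabilityMeasure μ ∧
      ∀ (n : ℕ) (A : Set (ℕ → Inn)),
        (∀ ω ω' : ℕ → Inn, (∀ i < n, ω i = ω' i) → (ω ∈ A ↔ ω' ∈ A)) →
        MeasurableSet A ∧
        ∀ (L : ℕ) (C : ℕ → Set Inn),
          μ.real {ω | ω ∈ A ∧ ∀ b < L, ω (n + b) ∈ C b} =
            μ.real A * ∏ b ∈ range L, ∑' i, (C b).indicator w i

/-- WS: the weights of the innovations and of the events used below -/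
def StmWs : Prop :=
  ∀ (k T : ℕ) (p δ : ℝ) (ρ e : ℕ → ℝ), Wt k T p δ ρ e →
    (∀ i, 0 ≤ wt k T δ ρ e i) ∧ HasSum (wt k T δ ρ e) 1 ∧
    (∑' i, {i : Inn | i.1 = true}.indicator (wt k T δ ρ e) i = δ) ∧
    (∑' i, {i : Inn | i.1 = false}.indicator (wt k T δ ρ e) i = 1 - δ) ∧
    (∀ J < k, ∑' i, {i : Inn | i.1 = false ∧ i.2.1 = J}.indicator (wt k T δ ρ e) i =
      (1 - δ) * ρ J) ∧
    (∀ τ ≤ T, ∑' i, {i : Inn | i.1 = false ∧ i.2.2 = τ}.indicator (wt k T δ ρ e) i =
      (1 - δ) * e τ)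

/-- DET: the deterministic facts on the chain -/
def StmDet : Prop :=
  ∀ (k : ℕ) (ω : ℕ → Inn),
    -- locality
    (∀ (ω' : ℕ → Inn) (n : ℕ), (∀ i < n, ω i = ω' i) → st k ω n = st k ω' n) ∧
    -- consecutive rounds
    (∀ n j j', st k ω n = St.pos j → st k ω (n + 1) = St.pos j' → j ≤ j') ∧
    -- echo
    (∀ n j τ, 1 ≤ τ → st k ω n = St.pos j → (ω n).1 = false → (ω n).2.2 = τ →
      (∀ b, 1 ≤ b → b < τ → (ω (n + b)).1 = false) →
      st k ω (n + τ) = St.pos j ∧ ∀ b, 1 ≤ b → b < τ → ∀ j', st k ω (n + b) ≠ St.pos j') ∧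
    -- run of age `a` after a reset at time `n + 1`
    (∀ n J a, 1 ≤ a → J + a ≤ k → (ω n).1 = true → (ω (n + 1)).1 = false →
      (ω (n + 1)).2.1 = J →
      (∀ b, 2 ≤ b → b ≤ a → (ω (n + b)).1 = false ∧ (ω (n + b)).2.2 = 0) →
      st k ω (n + 1) = St.fresh ∧ ∀ b, 1 ≤ b → b ≤ a → st k ω (n + 1 + b) = St.pos (J + b - 1))

/-- walker `j` in round `t` (after `T + 1` rounds of warming up) -/
noncomputable def Xw (k T j t : ℕ) (ω : ℕ → Inn) : Bool :=
  open Classical in decide (st k ω (T + 1 + t) = St.pos j)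

/-- CHAIN: the sequence of every walker has conditional probabilities at least `p` -/
def StmChain : Prop :=
  ∀ (k T : ℕ) (p δ : ℝ) (ρ e : ℕ → ℝ), Wt k T p δ ρ e →
    ∃ μ : Measure (ℕ → Inn), IsProbabilityMeasure μ ∧ (∀ j t, Measurable (Xw k T j t)) ∧
      ∀ j < k, ∀ (m : ℕ) (x : ℕ → Bool),
        p * μ.real {ω | ∀ i < m, Xw k T j i ω = x i} ≤
          μ.real {ω | (∀ i < m, Xw k T j i ω = x i) ∧ Xw k T j m ω = true}

/-- THIN: a family of 0/1 sequences with conditional probabilities at least `p` can be thinned to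
i.i.d. Bernoulli(p) sequences -/
def StmThin : Prop :=
  ∀ (κ : Type) (Ω₁ : Type) (_ : MeasurableSpace Ω₁) (μ₁ : Measure Ω₁) (X : κ → ℕ → Ω₁ → Bool)
    (p : ℝ), IsProbabilityMeasure μ₁ → 0 < p → (∀ j t, Measurable (X j t)) →
    (∀ (j : κ) (m : ℕ) (x : ℕ → Bool), p * μ₁.real {ω | ∀ i < m, X j i ω = x i} ≤
      μ₁.real {ω | (∀ i < m, X j i ω = x i) ∧ X j m ω = true}) →
    ∃ (Ω : Type) (_ : MeasurableSpace Ω) (μ : Measure Ω) (Y : κ → ℕ → Ω → Bool) (f : Ω → Ω₁),
      IsProbabilityMeasure μ ∧ (∀ j t, Measurable (Y j t)) ∧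
      (∀ (j : κ) (n : ℕ) (y : Fin n → Bool),
        μ.real {ω | ∀ i : Fin n, Y j i ω = y i} = ∏ i, (if y i = true then p else 1 - p)) ∧
      ∀ ω j t, Y j t ω = true → X j t (f ω) = true

/-- PARAM: the weights -/
def StmParam : Prop :=
  ∀ ε : ℝ, 0 < ε → ε < 1 → ∃ k₀ : ℕ, 0 < k₀ ∧ ∀ k : ℕ, k₀ ≤ k →
    ∃ (T : ℕ) (δ : ℝ) (ρ e : ℕ → ℝ), Wt k T ((1 - ε) / k) δ ρ e

/-- UB: the trivial upper bound -/
def StmUB : Prop := ∀ (k : ℕ) (p : ℝ), Coupling k p → (k : ℝ) * p ≤ 1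

/-- TWO: two walkers -/
def StmTwo : Prop := ∀ p : ℝ, 0 ≤ p → Coupling 2 p → p ≤ 1 / 3

end Pool.Agent.R130.AV
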