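import Pool.Agent.R130.AV.Defs

set_option autoImplicit false

namespace Pool.Agent.R130.AV

theorem st_loc (k : ℕ) (ω ω' : ℕ → Inn) (n : ℕ) (h : ∀ i < n, ω i = ω' i) :
    st k ω n = st k ω' n := by
  induction n with
  | zero => rfl
  | succ n ih =>
    simp only [st]
    rw [ih (fun i hi => h i (by omega)), h n (by omega)]

theorem step_reset (k : ℕ) (s : St) (i : Inn) (h : i.1 = true) : step k s i = St.fresh := by
  unfold step
  rw [if_pos h]

theorem step_fresh (k : ℕ) (i : Inn) (h : i.1 = false) : step k St.fresh i = St.pos i.2.1 := by
  unfold step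
  rw [if_neg (by simp [h])]

theorem step_wait (k w j : ℕ) (i : Inn) (h : i.1 = false) :
    step k (St.wait w j) i = if w ≤ 1 then St.pos j else St.wait (w - 1) j := by
  unfold step
  rw [if_neg (by simp [h])]

theorem step_pos (k j : ℕ) (i : Inn) (h : i.1 = false) :
    step k (St.pos j) i = if i.2.2 = 0 then (if j + 1 < k then St.pos (j + 1) else St.dead)
        else if i.2.2 = 1 then St.pos j else St.wait (i.2.2 - 1) j := by
  unfold step
  rw [if_neg (by simp [h])]

theorem det : StmDet := by
  intro k ω
  refine ⟨fun ω' n h => st_loc k ω ω' n h, ?_, ?_, ?_⟩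
  · intro n j j' h1 h2
    simp only [st] at h2
    rw [h1] at h2
    rcases Bool.eq_false_or_eq_true (ω n).1 with hz | hz
    · rw [step_reset k _ _ hz] at h2
      cases h2
    · rw [step_pos k j _ hz] at h2
      split_ifs at h2
      · injection h2 with h2
        omega
      · injection h2 with h2
        omega
  · intro n j τ hτ h1 hz he hb
    have key : ∀ b, 1 ≤ b → b < τ → st k ω (n + b) = St.wait (τ - b) j := by
      intro b hb1
      induction b, hb1 using Nat.le_induction with
      | base =>
        intro hb2
        show step k (st k ω n) (ω n) = _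
        rw [h1, step_pos k j _ hz, he, if_neg (by omega), if_neg (by omega)]
      | succ b hb1 ih =>
        intro hb2
        show step k (st k ω (n + b)) (ω (n + b)) = _
        rw [ih (by omega), step_wait k _ _ _ (hb b hb1 (by omega)), if_neg (by omega)]
        congr 1
    constructor
    · rcases Nat.lt_or_ge 1 τ with h | h
      · obtain ⟨b, rfl⟩ : ∃ b, τ = b + 1 := ⟨τ - 1, by omega⟩
        show step k (st k ω (n + b)) (ω (n + b)) = _
        rw [key b (by omega) (by omega), step_wait k _ _ _ (hb b (by omega) (by omega)),
          if_pos (by omega)]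
      · have : τ = 1 := by omega
        subst this
        show step k (st k ω n) (ω n) = _
        rw [h1, step_pos k j _ hz, he, if_neg (by omega), if_pos rfl]
    · intro b hb1 hb2 j' h
      rw [key b hb1 hb2] at h
      cases h
  · intro n J a ha hJ h1 h2 h3 h4
    have hf : st k ω (n + 1) = St.fresh := by
      show step k (st k ω n) (ω n) = _
      rw [step_reset k _ _ h1]
    refine ⟨hf, ?_⟩
    intro b hb1
    induction b, hb1 using Nat.le_induction with
    | base =>
      intro _
      show step k (st k ω (n + 1)) (ω (n + 1)) = _
      rw [hf, step_fresh k _ h2, h3]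
      congr 1
    | succ b hb1 ih =>
      intro hb2
      have h5 := h4 (b + 1) (by omega) hb2
      have h6 : n + (b + 1) = n + 1 + b := by omega
      rw [h6] at h5
      show step k (st k ω (n + 1 + b)) (ω (n + 1 + b)) = _
      rw [ih (by omega), step_pos k _ _ h5.1, if_pos h5.2, if_pos (by omega)]
      congr 1
      omega

end Pool.Agent.R130.AV
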