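import Pool.Agent.R130.AV.Defs

/-!
# The infinite product of a law on the innovations
-/

set_option autoImplicit false

open MeasureTheory Finset ProbabilityTheory

namespace Pool.Agent.R130.AV

namespace Ind

/-- the law on the innovations -/
noncomputable def pm (w : Inn → ℝ) (h0 : ∀ i, 0 ≤ w i) (h1 : HasSum w 1) : PMF Inn :=
  ⟨fun i => ENNReal.ofReal (w i), by
    rw [ENNReal.summable.hasSum_iff, ← ENNReal.ofReal_tsum_of_nonneg h0 h1.summable, h1.tsum_eq,
      ENNReal.ofReal_one]⟩

theorem real_pm (w : Inn → ℝ) (h0 : ∀ i, 0 ≤ w i) (h1 : HasSum w 1) (C : Set Inn) :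
    (pm w h0 h1).toMeasure.real C = ∑' i, C.indicator w i := by
  rw [Measure.real, PMF.toMeasure_apply _ (MeasurableSet.of_discrete), ENNReal.tsum_toReal_eq]
  · refine tsum_congr fun i => ?_
    by_cases hi : i ∈ C
    · rw [Set.indicator_of_mem hi, Set.indicator_of_mem hi]
      exact ENNReal.toReal_ofReal (h0 i)
    · rw [Set.indicator_of_notMem hi, Set.indicator_of_notMem hi]
      rfl
  · intro i
    by_cases hi : i ∈ C
    · rw [Set.indicator_of_mem hi]
      exact ENNReal.ofReal_ne_top
    · rw [Set.indicator_of_notMem hi]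
      exact ENNReal.zero_ne_top

end Ind

theorem ind : StmInd := by
  intro w h0 h1
  set ν : Measure Inn := (Ind.pm w h0 h1).toMeasure with hν
  set μ : Measure (ℕ → Inn) := Measure.infinitePi (fun _ : ℕ => ν) with hμ
  refine ⟨μ, inferInstance, ?_⟩
  intro n A hA
  -- the restriction
  have hr : ∀ S : Finset ℕ, Measurable fun (ω : ℕ → Inn) (i : S) => ω i := by
    intro S
    exact measurable_pi_lambda _ fun i => measurable_pi_apply _
  set A' : Set (range n → Inn) := {v | ∃ ω ∈ A, ∀ i : range n, ω i = v i} with hA'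
  have hAA : A = (fun (ω : ℕ → Inn) (i : range n) => ω i) ⁻¹' A' := by
    ext ω
    constructor
    · exact fun h => ⟨ω, h, fun _ => rfl⟩
    · rintro ⟨ω', h, he⟩
      exact (hA ω' ω fun i hi => he ⟨i, mem_range.2 hi⟩).1 h
  have hmA' : MeasurableSet A' := MeasurableSet.of_discrete
  have hmA : MeasurableSet A := by
    rw [hAA]
    exact hr _ hmA'
  refine ⟨hmA, fun L C => ?_⟩
  set B' : Set (Ico n (n + L) → Inn) := {v | ∀ i : Ico n (n + L), v i ∈ C ((i : ℕ) - n)} with hB'
  have hmB' : MeasurableSet B' := MeasurableSet.of_discrete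
  set B : Set (ℕ → Inn) := {ω | ∀ b < L, ω (n + b) ∈ C b} with hB
  have hBB : B = (fun (ω : ℕ → Inn) (i : Ico n (n + L)) => ω i) ⁻¹' B' := by
    ext ω
    constructor
    · rintro h ⟨i, hi⟩
      rw [mem_Ico] at hi
      have := h (i - n) (by omega)
      rwa [Nat.add_sub_cancel' hi.1] at this
    · intro h b hb
      have := h ⟨n + b, mem_Ico.2 ⟨by omega, by omega⟩⟩
      simpa using this
  have hind : iIndepFun (fun (i : ℕ) (ω : ℕ → Inn) => ω i) μ := by
    have := iIndepFun_infinitePi (P := fun _ : ℕ => ν) (X := fun (_ : ℕ) (x : Inn) => x)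
      (fun _ => measurable_id)
    exact this
  have hdis : Disjoint (range n) (Ico n (n + L)) := by
    rw [Finset.disjoint_left]
    intro a ha hb
    rw [mem_range] at ha
    rw [mem_Ico] at hb
    omega
  have hindep := hind.indepFun_finset (range n) (Ico n (n + L)) hdis (fun i => measurable_pi_apply i)
  have hmul := hindep.measure_inter_preimage_eq_mul A' B' hmA' hmB'
  have hBpi : B = Set.pi (↑(Ico n (n + L)) : Set ℕ) (fun i => C (i - n)) := by
    ext ω
    constructor
    · intro h i hi
      rw [Finset.mem_coe, mem_Ico] at hi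
      have := h (i - n) (by omega)
      rwa [Nat.add_sub_cancel' hi.1] at this
    · intro h b hb
      have := h (n + b) (by rw [Finset.mem_coe, mem_Ico]; omega)
      simpa using this
  have hμB : μ B = ∏ b ∈ range L, ν (C b) := by
    rw [hBpi, hμ, Measure.infinitePi_pi]
    · rw [Finset.prod_Ico_eq_prod_range]
      simp
    · intro i _
      exact MeasurableSet.of_discrete
  have hset : {ω | ω ∈ A ∧ ∀ b < L, ω (n + b) ∈ C b} = A ∩ B := rfl
  rw [hset, Measure.real, Measure.real]
  have h2 : μ (A ∩ B) = μ A * μ B := by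
    conv_lhs => rw [hAA, hBB]
    conv_rhs => rw [hAA, hBB]
    exact hmul
  rw [h2, ENNReal.toReal_mul, hμB, ENNReal.toReal_prod]
  congr 1
  refine prod_congr rfl fun b _ => ?_
  exact Ind.real_pm w h0 h1 (C b)

end Pool.Agent.R130.AV
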