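import Pool.Agent.R130.AV.Defs

/-! # PARAM: the weights (piece of MP_f1618c_pr) -/

set_option autoImplicit false

open MeasureTheory Finset

namespace Pool.Agent.R130.AV

namespace ParamAux

theorem sum_Icc_shift (n : ℕ) (f : ℕ → ℝ) : ∑ a ∈ Icc 1 n, f a = ∑ i ∈ range n, f (i + 1) := by
  induction n with
  | zero => simp
  | succ n ih => rw [Finset.sum_Icc_succ_top (by omega), ih, Finset.sum_range_succ]

theorem geom (c : ℝ) (n : ℕ) : (1 - c) * ∑ i ∈ range n, c ^ i = 1 - c ^ n := by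
  induction n with
  | zero => simp
  | succ n ih => rw [Finset.sum_range_succ, mul_add, ih]; ring

/-- lower bound of the run sum -/
theorem run_lower (δ r c : ℝ) (T j : ℕ) (hδ0 : 0 < δ) (hδ1 : δ < 1) (hr : 0 < r) (hc0 : 0 ≤ c)
    (hc1 : c ≤ 1 - δ) (hT : (1 - δ) ^ T ≤ δ) :
    r * (1 - δ) * (1 - δ) * δ ≤ (1 - c) * ∑ a ∈ Icc 1 (min T (j + 1)),
      δ * ((1 - δ) * (if j + 1 - a = 0 then r / δ else r)) * c ^ (a - 1) := by
  have hrδ : r ≤ r / δ := by
    rw [le_div_iff₀ hδ0]; nlinarith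
  have h1c : 0 < 1 - c := by linarith
  have h1δ : 0 < 1 - δ := by linarith
  rw [sum_Icc_shift]
  rcases le_total T (j + 1) with h | h
  · rw [min_eq_left h]
    have hge : δ * (1 - δ) * r * ∑ i ∈ range T, c ^ i ≤ ∑ i ∈ range T,
        δ * ((1 - δ) * (if j + 1 - (i + 1) = 0 then r / δ else r)) * c ^ (i + 1 - 1) := by
      rw [Finset.mul_sum]
      apply Finset.sum_le_sum
      intro i _
      rw [Nat.add_sub_cancel]
      apply mul_le_mul_of_nonneg_right _ (pow_nonneg hc0 _)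
      rw [mul_assoc]
      apply mul_le_mul_of_nonneg_left _ hδ0.le
      apply mul_le_mul_of_nonneg_left _ h1δ.le
      split_ifs
      · exact hrδ
      · exact le_rfl
    have hg := geom c T
    have hcT : c ^ T ≤ δ := (pow_le_pow_left₀ hc0 hc1 T).trans hT
    calc r * (1 - δ) * (1 - δ) * δ ≤ δ * (1 - δ) * r * (1 - c ^ T) := by
            have : 0 < δ * (1 - δ) * r := by positivity
            nlinarith
      _ = (1 - c) * (δ * (1 - δ) * r * ∑ i ∈ range T, c ^ i) := by rw [← hg]; ring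
      _ ≤ _ := mul_le_mul_of_nonneg_left hge h1c.le
  · rw [min_eq_right h, Finset.sum_range_succ]
    have hge : δ * (1 - δ) * r * ∑ i ∈ range j, c ^ i ≤ ∑ i ∈ range j,
        δ * ((1 - δ) * (if j + 1 - (i + 1) = 0 then r / δ else r)) * c ^ (i + 1 - 1) := by
      rw [Finset.mul_sum]
      apply Finset.sum_le_sum
      intro i _
      rw [Nat.add_sub_cancel]
      apply mul_le_mul_of_nonneg_right _ (pow_nonneg hc0 _)
      rw [mul_assoc]
      apply mul_le_mul_of_nonneg_left _ hδ0.le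
      apply mul_le_mul_of_nonneg_left _ h1δ.le
      split_ifs
      · exact hrδ
      · exact le_rfl
    have hg := geom c j
    have hlast : δ * ((1 - δ) * (if j + 1 - (j + 1) = 0 then r / δ else r)) * c ^ (j + 1 - 1) =
        (1 - δ) * r * c ^ j := by
      rw [Nat.sub_self, if_pos rfl, Nat.add_sub_cancel]
      field_simp
    rw [hlast]
    have hcj : 0 ≤ c ^ j := pow_nonneg hc0 j
    calc r * (1 - δ) * (1 - δ) * δ ≤ δ * (1 - δ) * r * 1 := by
            have : 0 < δ * (1 - δ) * r := by positivity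
            nlinarith
      _ = δ * (1 - δ) * r * (1 - c ^ j) + δ * ((1 - δ) * r * c ^ j) := by ring
      _ ≤ δ * (1 - δ) * r * (1 - c ^ j) + (1 - c) * ((1 - δ) * r * c ^ j) := by
            have : 0 ≤ (1 - δ) * r * c ^ j := by positivity
            nlinarith
      _ = (1 - c) * (δ * (1 - δ) * r * ∑ i ∈ range j, c ^ i + (1 - δ) * r * c ^ j) := by
            rw [← hg]; ring
      _ ≤ _ := mul_le_mul_of_nonneg_left (by linarith) h1c.le

end ParamAux

open ParamAux

theorem param : StmParam := by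
  intro ε hε0 hε1
  obtain ⟨δ, hδ⟩ : ∃ δ : ℝ, δ = ε / 4 := ⟨_, rfl⟩
  have hδ0 : 0 < δ := by rw [hδ]; positivity
  have hδ4 : δ < 1 / 4 := by rw [hδ]; linarith
  have hε : ε = 4 * δ := by rw [hδ]; ring
  have h1δ : 0 < 1 - δ := by linarith
  obtain ⟨T, hT⟩ := exists_pow_lt_of_lt_one hδ0 (show 1 - δ < 1 by linarith)
  have hMpos : 0 < (1 - δ) ^ T := pow_pos h1δ T
  refine ⟨⌈max ((T : ℝ) / (1 - δ) ^ T / δ ^ 2) (1 / δ ^ 2)⌉₊ + 1, by omega, ?_⟩
  intro k hk
  have hk' : max ((T : ℝ) / (1 - δ) ^ T / δ ^ 2) (1 / δ ^ 2) ≤ (k : ℝ) := by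
    have h1 := Nat.le_ceil (max ((T : ℝ) / (1 - δ) ^ T / δ ^ 2) (1 / δ ^ 2))
    have h2 : ((⌈max ((T : ℝ) / (1 - δ) ^ T / δ ^ 2) (1 / δ ^ 2)⌉₊ : ℕ) : ℝ) ≤ (k : ℝ) := by
      exact_mod_cast (by omega : ⌈max ((T : ℝ) / (1 - δ) ^ T / δ ^ 2) (1 / δ ^ 2)⌉₊ ≤ k)
    exact h1.trans h2
  have hk1 : (T : ℝ) / (1 - δ) ^ T / δ ^ 2 ≤ k := (le_max_left _ _).trans hk'
  have hk2 : 1 / δ ^ 2 ≤ (k : ℝ) := (le_max_right _ _).trans hk'
  have hkpos : 0 < k := by omega
  have hkR : (0 : ℝ) < k := by exact_mod_cast hkpos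
  obtain ⟨p, hp⟩ : ∃ p : ℝ, p = (1 - ε) / k := ⟨_, rfl⟩
  have hp0 : 0 < p := by rw [hp]; apply div_pos (by linarith) hkR
  have hp1 : p ≤ 1 / k := by
    rw [hp]; exact div_le_div_of_nonneg_right (by linarith) hkR.le
  rw [← hp]
  obtain ⟨E, hE⟩ : ∃ E : ℝ, E = ∑ i ∈ range T, p / (1 - δ) ^ (i + 1) := ⟨_, rfl⟩
  have hE0 : 0 ≤ E := by
    rw [hE]; exact Finset.sum_nonneg fun i _ => by positivity
  have hE1 : E ≤ δ ^ 2 := by
    have h1 : E ≤ T * (p / (1 - δ) ^ T) := by
      rw [hE]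
      calc ∑ i ∈ range T, p / (1 - δ) ^ (i + 1) ≤ ∑ i ∈ range T, p / (1 - δ) ^ T := by
            apply Finset.sum_le_sum
            intro i hi
            apply div_le_div_of_nonneg_left hp0.le hMpos
            exact pow_le_pow_of_le_one h1δ.le (by linarith)
              (Nat.succ_le_of_lt (Finset.mem_range.mp hi))
        _ = T * (p / (1 - δ) ^ T) := by simp
    have h2 : (T : ℝ) * (p / (1 - δ) ^ T) ≤ T * ((1 / k) / (1 - δ) ^ T) := by
      apply mul_le_mul_of_nonneg_left _ (Nat.cast_nonneg T)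
      exact div_le_div_of_nonneg_right hp1 hMpos.le
    have h3 : (T : ℝ) * ((1 / k) / (1 - δ) ^ T) = ((T : ℝ) / (1 - δ) ^ T) / k := by
      field_simp
    have h4 : ((T : ℝ) / (1 - δ) ^ T) / k ≤ δ ^ 2 := by
      rw [div_le_iff₀ hkR]
      rw [div_le_iff₀ (by positivity)] at hk1
      linarith
    linarith
  obtain ⟨r, hr⟩ : ∃ r : ℝ, r = 1 / ((k : ℝ) - 1 + 1 / δ) := ⟨_, rfl⟩
  have hk1' : (1 : ℝ) ≤ k := by exact_mod_cast hkpos
  have hden : 0 < (k : ℝ) - 1 + 1 / δ := by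
    have : 0 < 1 / δ := by positivity
    linarith
  have hr0 : 0 < r := by rw [hr]; positivity
  refine ⟨T, δ, fun i => if i = 0 then r / δ else r,
    fun i => if i = 0 then 1 - E else if i ≤ T then p / (1 - δ) ^ i else 0, ?_⟩
  constructor
  · exact hp0.le
  · exact hδ0
  · linarith
  · intro i
    split_ifs <;> positivity
  · obtain ⟨m, rfl⟩ : ∃ m, k = m + 1 := ⟨k - 1, by omega⟩
    rw [Finset.sum_range_succ']
    simp only [Nat.add_eq_zero_iff, one_ne_zero, and_false, if_false, if_true, sum_const,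
      card_range, nsmul_eq_mul]
    rw [hr]
    push_cast
    have : (m : ℝ) + 1 - 1 + 1 / δ ≠ 0 := by
      have := hden; push_cast at this; exact this.ne'
    have h' : (m : ℝ) + 1 / δ ≠ 0 := by simpa using this
    have h'' : (m : ℝ) * δ + 1 ≠ 0 := by positivity
    rw [add_sub_cancel_right]
    field_simp
  · intro i
    split_ifs
    · nlinarith
    · positivity
    · exact le_rfl
  · rw [Finset.sum_range_succ', if_pos rfl, hE]
    have : ∑ i ∈ range T, (if i + 1 = 0 then 1 - ∑ i ∈ range T, p / (1 - δ) ^ (i + 1)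
        else if i + 1 ≤ T then p / (1 - δ) ^ (i + 1) else 0) =
        ∑ i ∈ range T, p / (1 - δ) ^ (i + 1) := by
      apply Finset.sum_congr rfl
      intro i hi
      rw [if_neg (by omega), if_pos (Nat.succ_le_of_lt (Finset.mem_range.mp hi))]
    rw [this]; ring
  · intro τ h1 h2
    rw [if_neg (by omega), if_pos h2]
    have : (1 - δ) ^ τ ≠ 0 := (pow_pos h1δ τ).ne'
    rw [mul_div_cancel₀ _ this]
  · intro j _
    rw [if_pos rfl]
    have hc0 : 0 ≤ (1 - δ) * (1 - E) := by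
      apply mul_nonneg h1δ.le; nlinarith
    have hc1 : (1 - δ) * (1 - E) ≤ 1 - δ := by nlinarith
    have hlow := run_lower δ r ((1 - δ) * (1 - E)) T j hδ0 (by linarith) hr0 hc0 hc1 hT.le
    have h1c : 1 - (1 - δ) * (1 - E) ≤ δ * (1 + δ) := by nlinarith
    have h1c0 : 0 < 1 - (1 - δ) * (1 - E) := by nlinarith
    have hr1 : 1 / (k * (1 + δ)) ≤ r := by
      rw [hr]
      apply one_div_le_one_div_of_le hden
      have : 1 / δ ≤ k * δ := by
        rw [div_le_iff₀ (by positivity)] at hk2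
        rw [div_le_iff₀ hδ0]
        nlinarith
      linarith
    have hfin : (δ * (1 + δ)) * p ≤ r * (1 - δ) * (1 - δ) * δ := by
      have h1 : (1 + δ) * p ≤ (1 / (k * (1 + δ))) * ((1 - δ) * (1 - δ)) := by
        rw [hp, hε]
        rw [← mul_div_assoc, div_mul_eq_mul_div, div_le_div_iff₀ hkR (by positivity)]
        have : (1 + δ) * (1 - 4 * δ) * (1 + δ) ≤ (1 - δ) * (1 - δ) := by
          have : 0 < δ ^ 3 := by positivity
          nlinarith
        nlinarith
      have h2 : (1 / (k * (1 + δ))) * ((1 - δ) * (1 - δ)) ≤ r * ((1 - δ) * (1 - δ)) :=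
        mul_le_mul_of_nonneg_right hr1 (by positivity)
      nlinarith
    refine le_of_mul_le_mul_left ?_ h1c0
    calc (1 - (1 - δ) * (1 - E)) * p ≤ (δ * (1 + δ)) * p :=
          mul_le_mul_of_nonneg_right h1c hp0.le
      _ ≤ _ := hfin
      _ ≤ _ := hlow

end Pool.Agent.R130.AV
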