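import Pool.Agent.R130.AV.Defs

/-!
Project AV (MP_f1618c_pr), piece THIN: thinning.
-/

set_option autoImplicit false

open MeasureTheory Finset

namespace Pool.Agent.R130.AV

namespace Thin

section

variable {Ω₁ : Type} [MeasurableSpace Ω₁] (μ₁ : Measure Ω₁) (X : ℕ → Ω₁ → Bool) (p : ℝ)

noncomputable def P (m : ℕ) (x : ℕ → Bool) : ℝ := μ₁.real {ω | ∀ i < m, X i ω = x i}

noncomputable def P1 (m : ℕ) (x : ℕ → Bool) : ℝ :=
  μ₁.real {ω | (∀ i < m, X i ω = x i) ∧ X m ω = true}

noncomputable def thr (m : ℕ) (x : ℕ → Bool) : ℝ := p * P μ₁ X m x / P1 μ₁ X m x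

noncomputable def Yf (m : ℕ) (z : Ω₁ × (ℕ → ℝ)) : Bool :=
  if z.2 m ≤ thr μ₁ X p m (fun i => X i z.1) then X m z.1 else false

/-- the uniform law -/
noncomputable def UU : Measure ℝ := volume.restrict (Set.Icc 0 1)

instance : IsProbabilityMeasure UU := ⟨by simp [UU]⟩

noncomputable def q (y : ℕ → Bool) (i : ℕ) (x : ℕ → Bool) : ℝ :=
  if x i = true then (if y i = true then thr μ₁ X p i x else 1 - thr μ₁ X p i x)
  else (if y i = true then 0 else 1)

lemma P_congr {m : ℕ} {x x' : ℕ → Bool} (h : ∀ i < m, x i = x' i) : P μ₁ X m x = P μ₁ X m x' := by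
  unfold P
  congr 1
  ext ω
  simp only [Set.mem_ofPred_eq]
  exact forall₂_congr fun i hi => by rw [h i hi]

lemma P1_congr {m : ℕ} {x x' : ℕ → Bool} (h : ∀ i < m, x i = x' i) :
    P1 μ₁ X m x = P1 μ₁ X m x' := by
  unfold P1
  congr 1
  ext ω
  simp only [Set.mem_ofPred_eq]
  exact and_congr_left fun _ => forall₂_congr fun i hi => by rw [h i hi]

lemma thr_congr {m : ℕ} {x x' : ℕ → Bool} (h : ∀ i < m, x i = x' i) :
    thr μ₁ X p m x = thr μ₁ X p m x' := by
  unfold thr
  rw [P_congr μ₁ X h, P1_congr μ₁ X h]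

lemma q_congr {y : ℕ → Bool} {i : ℕ} {x x' : ℕ → Bool} (h : ∀ l ≤ i, x l = x' l) :
    q μ₁ X p y i x = q μ₁ X p y i x' := by
  unfold q
  rw [h i le_rfl, thr_congr μ₁ X p (fun l hl => h l hl.le)]

variable {X p}

lemma meas_cyl (hX : ∀ t, Measurable (X t)) (m : ℕ) (x : ℕ → Bool) :
    MeasurableSet {ω | ∀ i < m, X i ω = x i} := by
  have : {ω | ∀ i < m, X i ω = x i} = ⋂ i, ⋂ (_ : i < m), {ω | X i ω = x i} := by
    ext ω; simp
  rw [this]
  refine MeasurableSet.iInter fun i => MeasurableSet.iInter fun _ => ?_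
  exact (hX i) (measurableSet_singleton (x i))

lemma Yf_meas (hX : ∀ t, Measurable (X t)) (m : ℕ) : Measurable (Yf μ₁ X p m) := by
  unfold Yf
  have h1 : Measurable (fun ω : Ω₁ => thr μ₁ X p m (fun i => X i ω)) := by
    have h2 : (fun ω : Ω₁ => thr μ₁ X p m (fun i => X i ω)) =
        (fun z : Fin m → Bool => thr μ₁ X p m (fun i => if h : i < m then z ⟨i, h⟩ else false)) ∘
          (fun ω : Ω₁ => fun i : Fin m => X i ω) := by
      funext ω
      refine thr_congr μ₁ X p fun i hi => ?_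
      rw [dif_pos hi]
    rw [h2]
    exact (measurable_of_countable _).comp (measurable_pi_lambda _ fun i => hX i)
  refine Measurable.ite ?_ ((hX m).comp measurable_fst) measurable_const
  exact measurableSet_le ((measurable_pi_apply m).comp measurable_snd) (h1.comp measurable_fst)

lemma thr_mem (hp : 0 < p) (h : ∀ (m : ℕ) (x : ℕ → Bool), p * P μ₁ X m x ≤ P1 μ₁ X m x)
    (m : ℕ) (x : ℕ → Bool) : 0 ≤ thr μ₁ X p m x ∧ thr μ₁ X p m x ≤ 1 := by
  have h0 : 0 ≤ P μ₁ X m x := measureReal_nonneg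
  have h1 : 0 ≤ P1 μ₁ X m x := measureReal_nonneg
  unfold thr
  exact ⟨by positivity, div_le_one_of_le₀ (h m x) h1⟩

lemma UU_Iic {a : ℝ} (h0 : 0 ≤ a) (h1 : a ≤ 1) : UU.real (Set.Iic a) = a := by
  unfold UU
  rw [Measure.real, Measure.restrict_apply measurableSet_Iic]
  have : Set.Iic a ∩ Set.Icc (0 : ℝ) 1 = Set.Icc 0 a := by
    ext v
    simp only [Set.mem_inter_iff, Set.mem_Iic, Set.mem_Icc]
    constructor
    · rintro ⟨h2, h3, -⟩; exact ⟨h3, h2⟩
    · rintro ⟨h2, h3⟩; exact ⟨h3, h2, h3.trans h1⟩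
  rw [this, Real.volume_Icc, sub_zero, ENNReal.toReal_ofReal h0]

/-- the slices -/
noncomputable def Sl (y : ℕ → Bool) (x : ℕ → Bool) (i : ℕ) : Set ℝ :=
  {v | (if v ≤ thr μ₁ X p i x then x i else false) = y i}

lemma Sl_eq (y x : ℕ → Bool) (i : ℕ) : Sl μ₁ (X := X) (p := p) y x i =
    if x i = true then (if y i = true then Set.Iic (thr μ₁ X p i x) else
      (Set.Iic (thr μ₁ X p i x))ᶜ) else (if y i = true then ∅ else Set.univ) := by
  unfold Sl
  rcases hx : x i with _ | _ <;> rcases hy : y i with _ | _ <;> ext v <;>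
    simp

lemma Sl_meas (y x : ℕ → Bool) (i : ℕ) : MeasurableSet (Sl μ₁ (X := X) (p := p) y x i) := by
  rw [Sl_eq]
  split_ifs
  · exact measurableSet_Iic
  · exact measurableSet_Iic.compl
  · exact MeasurableSet.empty
  · exact MeasurableSet.univ

lemma UU_Sl (hp : 0 < p) (h : ∀ (m : ℕ) (x : ℕ → Bool), p * P μ₁ X m x ≤ P1 μ₁ X m x)
    (y x : ℕ → Bool) (i : ℕ) : UU.real (Sl μ₁ (X := X) (p := p) y x i) = q μ₁ X p y i x := by
  obtain ⟨h0, h1⟩ := thr_mem μ₁ hp h i x
  rw [Sl_eq]
  unfold q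
  split_ifs
  · exact UU_Iic h0 h1
  · rw [probReal_compl_eq_one_sub measurableSet_Iic, UU_Iic h0 h1]
  · exact measureReal_empty
  · exact probReal_univ

variable [IsProbabilityMeasure μ₁]

lemma cell (hp : 0 < p) (h : ∀ (m : ℕ) (x : ℕ → Bool), p * P μ₁ X m x ≤ P1 μ₁ X m x)
    (y x : ℕ → Bool) (n : ℕ) :
    (μ₁.prod (Measure.infinitePi fun _ : ℕ => UU)).real
      ({z | ∀ i < n, Yf μ₁ X p i z = y i} ∩ {z | ∀ i < n, X i z.1 = x i}) =
      P μ₁ X n x * ∏ i ∈ range n, q μ₁ X p y i x := by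
  have h1 : ({z : Ω₁ × (ℕ → ℝ) | ∀ i < n, Yf μ₁ X p i z = y i} ∩
      {z | ∀ i < n, X i z.1 = x i}) =
      {ω | ∀ i < n, X i ω = x i} ×ˢ (Set.pi (range n : Finset ℕ) (Sl μ₁ (X := X) (p := p) y x)) := by
    ext ⟨ω, u⟩
    simp only [Set.mem_inter_iff, Set.mem_ofPred_eq, Set.mem_prod, Set.mem_pi, Finset.coe_range,
      Set.mem_Iio]
    constructor
    · rintro ⟨h2, h3⟩
      refine ⟨h3, fun i hi => ?_⟩
      have h4 := h2 i hi
      unfold Yf at h4
      change (if u i ≤ thr μ₁ X p i (fun l => X l ω) then X i ω else false) = y i at h4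
      rw [thr_congr μ₁ X p (fun l hl => h3 l (hl.trans hi)), h3 i hi] at h4
      exact h4
    · rintro ⟨h3, h2⟩
      refine ⟨fun i hi => ?_, h3⟩
      have h4 : (if u i ≤ thr μ₁ X p i x then x i else false) = y i := h2 i hi
      unfold Yf
      change (if u i ≤ thr μ₁ X p i (fun l => X l ω) then X i ω else false) = y i
      rw [thr_congr μ₁ X p (fun l hl => h3 l (hl.trans hi)), h3 i hi]
      exact h4
  rw [h1, measureReal_prod_prod]
  congr 1
  rw [Measure.real, Measure.infinitePi_pi _ (fun i _ => Sl_meas μ₁ y x i), ENNReal.toReal_prod]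
  exact Finset.prod_congr rfl fun i _ => UU_Sl μ₁ hp h y x i

/-- the word of a set -/
noncomputable def wd (s : Finset ℕ) (i : ℕ) : Bool := open Classical in decide (i ∈ s)

lemma part {Ω : Type} [MeasurableSpace Ω] (μ : Measure Ω) [IsProbabilityMeasure μ]
    (Z : ℕ → Ω → Bool) (hZ : ∀ t, Measurable (Z t)) (E : Set Ω) (hE : MeasurableSet E) (n : ℕ) :
    μ.real E = ∑ s ∈ (range n).powerset, μ.real (E ∩ {z | ∀ i < n, Z i z = wd s i}) := by
  induction n with
  | zero => simp
  | succ n ih =>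
    rw [ih, Finset.range_add_one, Finset.sum_powerset_insert (by simp), ← Finset.sum_add_distrib]
    refine Finset.sum_congr rfl fun s hs => ?_
    have hns : n ∉ s := fun h => by
      have := Finset.mem_powerset.1 hs h
      simp at this
    have hm : MeasurableSet (E ∩ {z | ∀ i < n, Z i z = wd s i}) := hE.inter (meas_cyl hZ n _)
    have hT : MeasurableSet {z | Z n z = true} := hZ n (measurableSet_singleton true)
    rw [← measureReal_inter_add_sdiff (s := E ∩ {z | ∀ i < n, Z i z = wd s i}) hT, add_comm]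
    congr 1
    · congr 1
      ext z
      simp only [Set.mem_sdiff, Set.mem_inter_iff, Set.mem_ofPred_eq]
      have hw : wd s n = false := by simp [wd, hns]
      constructor
      · rintro ⟨⟨h1, h2⟩, h3⟩
        refine ⟨h1, fun i hi => ?_⟩
        rcases Nat.lt_succ_iff_lt_or_eq.1 hi with h4 | h4
        · exact h2 i h4
        · rw [h4, hw]; simpa using h3
      · rintro ⟨h1, h2⟩
        refine ⟨⟨h1, fun i hi => h2 i (by omega)⟩, ?_⟩
        rw [h2 n (by omega), hw]
        simp
    · congr 1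
      ext z
      simp only [Set.mem_inter_iff, Set.mem_ofPred_eq]
      have hw : wd (insert n s) n = true := by simp [wd]
      have hw' : ∀ i < n, wd (insert n s) i = wd s i := by
        intro i hi
        have : i ≠ n := by omega
        simp [wd, this]
      constructor
      · rintro ⟨⟨h1, h2⟩, h3⟩
        refine ⟨h1, fun i hi => ?_⟩
        rcases Nat.lt_succ_iff_lt_or_eq.1 hi with h4 | h4
        · rw [h2 i h4, hw' i h4]
        · rw [h4, hw]; exact h3
      · rintro ⟨h1, h2⟩
        refine ⟨⟨h1, fun i hi => ?_⟩, ?_⟩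
        · rw [h2 i (by omega), hw' i hi]
        · rw [h2 n (by omega), hw]

lemma sum_words (hX : ∀ t, Measurable (X t)) (hp : 0 < p)
    (h : ∀ (m : ℕ) (x : ℕ → Bool), p * P μ₁ X m x ≤ P1 μ₁ X m x) (y : ℕ → Bool) (n : ℕ) :
    ∑ s ∈ (range n).powerset, P μ₁ X n (wd s) * ∏ i ∈ range n, q μ₁ X p y i (wd s) =
      ∏ i ∈ range n, (if y i = true then p else 1 - p) := by
  induction n with
  | zero =>
    simp [P]
  | succ n ih =>
    rw [Finset.prod_range_succ, ← ih, Finset.range_add_one,
      Finset.sum_powerset_insert (by simp), ← Finset.sum_add_distrib, Finset.sum_mul]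
    refine Finset.sum_congr rfl fun s hs => ?_
    have hns : n ∉ s := fun h => by
      have := Finset.mem_powerset.1 hs h
      simp at this
    have hw : wd s n = false := by simp [wd, hns]
    have hw1 : wd (insert n s) n = true := by simp [wd]
    have hw' : ∀ i < n, wd (insert n s) i = wd s i := by
      intro i hi
      have : i ≠ n := by omega
      simp [wd, this]
    rw [Finset.prod_insert (by simp), Finset.prod_insert (by simp)]
    have e1 : ∏ i ∈ range n, q μ₁ X p y i (wd (insert n s)) =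
        ∏ i ∈ range n, q μ₁ X p y i (wd s) := by
      refine Finset.prod_congr rfl fun i hi => ?_
      have hi' := Finset.mem_range.1 hi
      exact q_congr μ₁ X p fun l hl => hw' l (by omega)
    have e2 : P μ₁ X (n + 1) (wd (insert n s)) = P1 μ₁ X n (wd s) := by
      unfold P P1
      congr 1
      ext ω
      simp only [Set.mem_ofPred_eq]
      constructor
      · intro h2
        refine ⟨fun i hi => ?_, ?_⟩
        · rw [h2 i (by omega), hw' i hi]
        · rw [h2 n (by omega), hw1]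
      · rintro ⟨h2, h3⟩ i hi
        rcases Nat.lt_succ_iff_lt_or_eq.1 hi with h4 | h4
        · rw [h2 i h4, hw' i h4]
        · rw [h4, hw1]; exact h3
    have e3 : P μ₁ X (n + 1) (wd s) = P μ₁ X n (wd s) - P1 μ₁ X n (wd s) := by
      have hT : MeasurableSet {ω | X n ω = true} := hX n (measurableSet_singleton true)
      have h2 := measureReal_inter_add_sdiff (μ := μ₁) (s := {ω | ∀ i < n, X i ω = wd s i}) hT
      have h3 : {ω | ∀ i < n, X i ω = wd s i} ∩ {ω | X n ω = true} =
          {ω | (∀ i < n, X i ω = wd s i) ∧ X n ω = true} := rfl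
      have h4 : {ω | ∀ i < n, X i ω = wd s i} \ {ω | X n ω = true} =
          {ω | ∀ i < n + 1, X i ω = wd s i} := by
        ext ω
        simp only [Set.mem_sdiff, Set.mem_ofPred_eq]
        constructor
        · rintro ⟨h5, h6⟩ i hi
          rcases Nat.lt_succ_iff_lt_or_eq.1 hi with h7 | h7
          · exact h5 i h7
          · rw [h7, hw]; simpa using h6
        · intro h5
          refine ⟨fun i hi => h5 i (by omega), ?_⟩
          rw [h5 n (by omega), hw]
          simp
      rw [h3, h4] at h2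
      unfold P P1
      linarith
    have e4 : thr μ₁ X p n (wd (insert n s)) = thr μ₁ X p n (wd s) :=
      thr_congr μ₁ X p hw'
    have e5 : q μ₁ X p y n (wd (insert n s)) =
        if y n = true then thr μ₁ X p n (wd s) else 1 - thr μ₁ X p n (wd s) := by
      unfold q
      rw [if_pos hw1, e4]
    have e6 : q μ₁ X p y n (wd s) = if y n = true then 0 else 1 := by
      unfold q
      rw [if_neg (by rw [hw]; simp)]
    rw [e1, e2, e3, e5, e6]
    have h0 : 0 ≤ P μ₁ X n (wd s) := measureReal_nonneg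
    have h1 := h n (wd s)
    have e7 : P1 μ₁ X n (wd s) * thr μ₁ X p n (wd s) = p * P μ₁ X n (wd s) := by
      unfold thr
      by_cases h8 : P1 μ₁ X n (wd s) = 0
      · rw [h8] at h1 ⊢
        have : p * P μ₁ X n (wd s) = 0 := le_antisymm h1 (by positivity)
        rw [this]; simp
      · field_simp
    set R := ∏ i ∈ range n, q μ₁ X p y i (wd s)
    split_ifs with hy
    · linear_combination R * e7
    · linear_combination -R * e7

lemma law (hX : ∀ t, Measurable (X t)) (hp : 0 < p)
    (h : ∀ (m : ℕ) (x : ℕ → Bool), p * P μ₁ X m x ≤ P1 μ₁ X m x) (y : ℕ → Bool) (n : ℕ) :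
    (μ₁.prod (Measure.infinitePi fun _ : ℕ => UU)).real {z | ∀ i < n, Yf μ₁ X p i z = y i} =
      ∏ i ∈ range n, (if y i = true then p else 1 - p) := by
  rw [part (μ₁.prod (Measure.infinitePi fun _ : ℕ => UU)) (fun i z => X i z.1)
    (fun t => (hX t).comp measurable_fst) _ (meas_cyl (fun t => Yf_meas μ₁ hX t) n y) n,
    ← sum_words μ₁ hX hp h y n]
  exact Finset.sum_congr rfl fun s _ => cell μ₁ hp h y (wd s) n

end

end Thin

open Thin in
theorem thin : StmThin := by
  intro κ Ω₁ _ μ₁ X p _ hp hX h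
  refine ⟨Ω₁ × (ℕ → ℝ), inferInstance, μ₁.prod (Measure.infinitePi fun _ : ℕ => UU),
    fun j t => Yf μ₁ (X j) p t, Prod.fst, inferInstance, fun j t => Yf_meas μ₁ (hX j) t, ?_, ?_⟩
  · intro j n y
    have h1 := law μ₁ (hX j) hp (h j) (fun i => if hi : i < n then y ⟨i, hi⟩ else false) n
    rw [Finset.prod_range] at h1
    have h2 : {z : Ω₁ × (ℕ → ℝ) | ∀ i : Fin n, Yf μ₁ (X j) p i z = y i} =
        {z | ∀ i < n, Yf μ₁ (X j) p i z = if hi : i < n then y ⟨i, hi⟩ else false} := by
      ext z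
      simp only [Set.mem_ofPred_eq]
      constructor
      · intro h3 i hi
        rw [dif_pos hi]
        exact h3 ⟨i, hi⟩
      · intro h3 i
        have := h3 i i.2
        rw [dif_pos i.2] at this
        exact this
    rw [h2, h1]
    refine Finset.prod_congr rfl fun i _ => ?_
    simp only [Fin.is_lt, dite_true, Fin.eta]
  · intro z j t hY
    change Yf μ₁ (X j) p t z = true at hY
    unfold Yf at hY
    split_ifs at hY with h1
    exact hY

end Pool.Agent.R130.AV
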