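import Pool.Agent.R130.AV.Defs
import Pool.Agent.R130.AV.Ind
import Pool.Agent.R130.AV.Thin

/-!
# Two walkers: a coupling with `p = 1/3` (three-state chain found by helper260)
-/

set_option autoImplicit false

open MeasureTheory Finset

namespace Pool.Agent.R130.AV.Third

/-- one step: state `0` = nobody at 1, `1` = first walker at 1, `2` = second walker at 1 -/
def nx (s u : ℕ) : ℕ :=
  if u = 2 then 2 else if s = 0 then 1 else if s = 2 then 0 else if u = 1 then 1 else 0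

/-- the chain, started at `1` -/
def ch (ω : ℕ → Inn) : ℕ → ℕ
  | 0 => 1
  | n + 1 => nx (ch ω n) (ω n).2.1

/-- the law of the innovations -/
noncomputable def w3 (i : Inn) : ℝ := if i.1 = false ∧ i.2.1 < 3 ∧ i.2.2 = 0 then 1 / 3 else 0

theorem w3_nonneg (i : Inn) : 0 ≤ w3 i := by
  unfold w3; split_ifs <;> norm_num

/-- support -/
def supp3 : Finset Inn := {(false, 0, 0), (false, 1, 0), (false, 2, 0)}

theorem w3_out (i : Inn) (h : i ∉ supp3) : w3 i = 0 := by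
  unfold w3
  rw [if_neg]
  rintro ⟨h1, h2, h3⟩
  apply h
  obtain ⟨a, b, c⟩ := i
  simp only at h1 h2 h3
  subst h1 h3
  interval_cases b <;> simp [supp3]

theorem w3_sum : HasSum w3 1 := by
  have h : HasSum w3 (∑ i ∈ supp3, w3 i) := hasSum_sum_of_ne_finset_zero (fun i hi => w3_out i hi)
  have h2 : ∑ i ∈ supp3, w3 i = 1 := by
    simp [supp3, w3]
    norm_num
  rwa [h2] at h

theorem ts (C : Set Inn) [DecidablePred (· ∈ C)] :
    ∑' i, C.indicator w3 i = ∑ i ∈ supp3, (if i ∈ C then w3 i else 0) := by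
  rw [tsum_eq_sum (s := supp3)]
  · apply Finset.sum_congr rfl
    intro i _
    rw [Set.indicator_apply]
  · intro i hi
    rw [Set.indicator_apply, w3_out i hi]
    simp

theorem ts_two : ∑' i, {i : Inn | i.2.1 = 2}.indicator w3 i = 1 / 3 := by
  rw [ts]
  simp [supp3, w3]

theorem ts_ne : ∑' i, {i : Inn | i.2.1 ≠ 2}.indicator w3 i = 2 / 3 := by
  rw [ts]
  simp [supp3, w3]
  norm_num

theorem ts_one : ∑' i, {i : Inn | i.2.1 = 1}.indicator w3 i = 1 / 3 := by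
  rw [ts]
  simp [supp3, w3]

theorem ts_zero : ∑' i, {i : Inn | i.2.1 ≠ 1 ∧ i.2.1 ≠ 2}.indicator w3 i = 1 / 3 := by
  rw [ts]
  simp [supp3, w3]

theorem ch_loc (ω ω' : ℕ → Inn) (n : ℕ) (h : ∀ i < n, ω i = ω' i) : ch ω n = ch ω' n := by
  induction n with
  | zero => rfl
  | succ n ih =>
    simp only [ch]
    rw [ih (fun i hi => h i (by omega)), h n (by omega)]

theorem ch_val (ω : ℕ → Inn) (n : ℕ) : ch ω n = 0 ∨ ch ω n = 1 ∨ ch ω n = 2 := by
  cases n with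
  | zero => right; left; rfl
  | succ n =>
    simp only [ch, nx]
    split_ifs <;> simp

theorem ch_two (ω : ℕ → Inn) (n : ℕ) : ch ω (n + 1) = 2 ↔ (ω n).2.1 = 2 := by
  simp only [ch, nx]
  constructor
  · intro h
    by_contra h1
    rw [if_neg h1] at h
    split_ifs at h <;> omega
  · intro h
    rw [if_pos h]

theorem ch_one (ω : ℕ → Inn) (n : ℕ) : ch ω (n + 1) = 1 ↔
    (ch ω n = 0 ∧ (ω n).2.1 ≠ 2) ∨ (ch ω n = 1 ∧ (ω n).2.1 = 1) := by
  rcases ch_val ω n with h | h | h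
  all_goals
    simp only [ch, nx, h]
    by_cases h1 : (ω n).2.1 = 2
    · simp [h1]
    · by_cases h2 : (ω n).2.1 = 1 <;> simp [h1, h2]

theorem ch_zero (ω : ℕ → Inn) (n : ℕ) : ch ω (n + 1) = 0 ↔
    (ch ω n = 2 ∧ (ω n).2.1 ≠ 2) ∨ (ch ω n = 1 ∧ (ω n).2.1 ≠ 1 ∧ (ω n).2.1 ≠ 2) := by
  rcases ch_val ω n with h | h | h
  all_goals
    simp only [ch, nx, h]
    by_cases h1 : (ω n).2.1 = 2
    · simp [h1]
    · by_cases h2 : (ω n).2.1 = 1 <;> simp [h1, h2]

/-- walker `j` in round `t` -/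
def Xc (j t : ℕ) (ω : ℕ → Inn) : Bool := decide (ch ω (t + 1) = j + 1)

/-- the event of a word -/
def B (j m : ℕ) (x : ℕ → Bool) : Set (ℕ → Inn) := {ω | ∀ i < m, Xc j i ω = x i}

/-- a word and a state -/
def E (j m : ℕ) (x : ℕ → Bool) (s : ℕ) : Set (ℕ → Inn) := {ω | ω ∈ B j m x ∧ ch ω m = s}

theorem B_loc (j m : ℕ) (x : ℕ → Bool) (ω ω' : ℕ → Inn) (h : ∀ i < m, ω i = ω' i) :
    ω ∈ B j m x ↔ ω' ∈ B j m x := by
  have h1 : ∀ i < m, Xc j i ω = Xc j i ω' := by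
    intro i hi
    unfold Xc
    rw [ch_loc ω ω' (i + 1) (fun l hl => h l (by omega))]
  constructor
  · intro h2 i hi
    rw [← h1 i hi]; exact h2 i hi
  · intro h2 i hi
    rw [h1 i hi]; exact h2 i hi

theorem E_loc (j m : ℕ) (x : ℕ → Bool) (s : ℕ) (ω ω' : ℕ → Inn) (h : ∀ i < m, ω i = ω' i) :
    ω ∈ E j m x s ↔ ω' ∈ E j m x s := by
  unfold E
  constructor
  · rintro ⟨h1, h2⟩
    exact ⟨(B_loc j m x ω ω' h).1 h1, by rw [← ch_loc ω ω' m h]; exact h2⟩
  · rintro ⟨h1, h2⟩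
    exact ⟨(B_loc j m x ω ω' h).2 h1, by rw [ch_loc ω ω' m h]; exact h2⟩

section
variable (μ : Measure (ℕ → Inn)) [IsProbabilityMeasure μ]
  (hμ : ∀ (n : ℕ) (A : Set (ℕ → Inn)),
        (∀ ω ω' : ℕ → Inn, (∀ i < n, ω i = ω' i) → (ω ∈ A ↔ ω' ∈ A)) →
        MeasurableSet A ∧
        ∀ (L : ℕ) (C : ℕ → Set Inn),
          μ.real {ω | ω ∈ A ∧ ∀ b < L, ω (n + b) ∈ C b} =
            μ.real A * ∏ b ∈ range L, ∑' i, (C b).indicator w3 i)

include hμ

theorem one_step (n : ℕ) (A : Set (ℕ → Inn))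
    (hA : ∀ ω ω' : ℕ → Inn, (∀ i < n, ω i = ω' i) → (ω ∈ A ↔ ω' ∈ A)) (C : Set Inn) :
    μ.real {ω | ω ∈ A ∧ ω n ∈ C} = μ.real A * ∑' i, C.indicator w3 i := by
  have h := (hμ n A hA).2 1 (fun _ => C)
  simp only [Finset.range_one, Finset.prod_singleton] at h
  rw [← h]
  congr 1
  ext ω
  simp

theorem meas (n : ℕ) (A : Set (ℕ → Inn))
    (hA : ∀ ω ω' : ℕ → Inn, (∀ i < n, ω i = ω' i) → (ω ∈ A ↔ ω' ∈ A)) : MeasurableSet A :=
  (hμ n A hA).1

theorem mC (n : ℕ) (A : Set (ℕ → Inn))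
    (hA : ∀ ω ω' : ℕ → Inn, (∀ i < n, ω i = ω' i) → (ω ∈ A ↔ ω' ∈ A)) (C : Set Inn) :
    MeasurableSet {ω | ω ∈ A ∧ ω n ∈ C} := by
  apply meas μ hμ (n + 1)
  intro ω ω' h
  simp only [Set.mem_setOf_eq]
  rw [hA ω ω' (fun i hi => h i (by omega)), h n (by omega)]

theorem split (j m : ℕ) (x : ℕ → Bool) :
    μ.real (B j m x) = μ.real (E j m x 0) + μ.real (E j m x 1) + μ.real (E j m x 2) := by
  have h1 : B j m x = (E j m x 0 ∪ E j m x 1) ∪ E j m x 2 := by
    ext ω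
    have := ch_val ω m
    simp only [E, Set.mem_union, Set.mem_setOf_eq]
    tauto
  have hm : ∀ s, MeasurableSet (E j m x s) := fun s => meas μ hμ m _ (E_loc j m x s)
  rw [h1, measureReal_union _ (hm 2), measureReal_union _ (hm 1)]
  · rw [Set.disjoint_left]
    rintro ω ⟨_, h2⟩ ⟨_, h3⟩
    omega
  · rw [Set.disjoint_left]
    rintro ω (⟨_, h2⟩ | ⟨_, h2⟩) ⟨_, h3⟩
    · omega
    · omega

theorem sym (m : ℕ) (x : ℕ → Bool) : μ.real (E 0 m x 0) = μ.real (E 0 m x 2) := by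
  induction m with
  | zero =>
    have h0 : E 0 0 x 0 = ∅ := by
      ext ω
      simp [E, ch]
    have h2 : E 0 0 x 2 = ∅ := by
      ext ω
      simp [E, ch]
    rw [h0, h2]
  | succ m ih =>
    cases hx : x m with
    | true =>
      have h0 : ∀ s, s ≠ 1 → E 0 (m + 1) x s = ∅ := by
        intro s hs
        ext ω
        simp only [E, B, Set.mem_setOf_eq, Set.mem_empty_iff_false, iff_false, not_and]
        intro h1 h2
        have h3 := h1 m (by omega)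
        rw [hx] at h3
        simp only [Xc, decide_eq_true_eq] at h3
        omega
      rw [h0 0 (by omega), h0 2 (by omega)]
    | false =>
      have hB : ∀ ω s, s ≠ 1 → (ω ∈ E 0 (m + 1) x s ↔ ω ∈ B 0 m x ∧ ch ω (m + 1) = s) := by
        intro ω s hs
        simp only [E, B, Set.mem_setOf_eq]
        constructor
        · rintro ⟨h1, h2⟩
          exact ⟨fun i hi => h1 i (by omega), h2⟩
        · rintro ⟨h1, h2⟩
          refine ⟨fun i hi => ?_, h2⟩
          rcases Nat.lt_or_ge i m with h3 | h3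
          · exact h1 i h3
          · have : i = m := by omega
            subst this
            rw [hx]
            simp only [Xc, decide_eq_false_iff_not]
            omega
      have h2 : E 0 (m + 1) x 2 = {ω | ω ∈ B 0 m x ∧ ω m ∈ {i : Inn | i.2.1 = 2}} := by
        ext ω
        rw [hB ω 2 (by omega), ch_two]
        rfl
      have h0 : E 0 (m + 1) x 0 = {ω | ω ∈ E 0 m x 2 ∧ ω m ∈ {i : Inn | i.2.1 ≠ 2}} ∪
          {ω | ω ∈ E 0 m x 1 ∧ ω m ∈ {i : Inn | i.2.1 ≠ 1 ∧ i.2.1 ≠ 2}} := by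
        ext ω
        rw [hB ω 0 (by omega), ch_zero]
        simp only [E, Set.mem_union, Set.mem_setOf_eq]
        tauto
      rw [h2, h0, measureReal_union _ (mC μ hμ m _ (E_loc 0 m x 1) _),
        one_step μ hμ m _ (E_loc 0 m x 2), one_step μ hμ m _ (E_loc 0 m x 1),
        one_step μ hμ m _ (B_loc 0 m x), ts_two, ts_ne, ts_zero, split μ hμ 0 m x, ih]
      · ring
      · rw [Set.disjoint_left]
        rintro ω ⟨⟨_, h3⟩, _⟩ ⟨⟨_, h4⟩, _⟩
        omega

theorem cond (j : ℕ) (hj : j < 2) (m : ℕ) (x : ℕ → Bool) :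
    (1 / 3 : ℝ) * μ.real {ω | ∀ i < m, Xc j i ω = x i} ≤
      μ.real {ω | (∀ i < m, Xc j i ω = x i) ∧ Xc j m ω = true} := by
  have h0 : {ω | ∀ i < m, Xc j i ω = x i} = B j m x := rfl
  rw [h0]
  interval_cases j
  · have h1 : {ω | (∀ i < m, Xc 0 i ω = x i) ∧ Xc 0 m ω = true} =
        {ω | ω ∈ E 0 m x 0 ∧ ω m ∈ {i : Inn | i.2.1 ≠ 2}} ∪
        {ω | ω ∈ E 0 m x 1 ∧ ω m ∈ {i : Inn | i.2.1 = 1}} := by
      ext ω
      simp only [Xc, decide_eq_true_eq, Set.mem_setOf_eq, Set.mem_union, E, B]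
      rw [show (0 : ℕ) + 1 = 1 from rfl, ch_one]
      tauto
    rw [h1, measureReal_union _ (mC μ hμ m _ (E_loc 0 m x 1) _),
        one_step μ hμ m _ (E_loc 0 m x 0), one_step μ hμ m _ (E_loc 0 m x 1), ts_ne, ts_one,
        split μ hμ 0 m x, sym μ hμ m x]
    · apply le_of_eq
      ring
    · rw [Set.disjoint_left]
      rintro ω ⟨⟨_, h3⟩, _⟩ ⟨⟨_, h4⟩, _⟩
      omega
  · have h1 : {ω | (∀ i < m, Xc 1 i ω = x i) ∧ Xc 1 m ω = true} =
        {ω | ω ∈ B 1 m x ∧ ω m ∈ {i : Inn | i.2.1 = 2}} := by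
      ext ω
      simp only [Xc, decide_eq_true_eq, Set.mem_setOf_eq, B]
      rw [show (1 : ℕ) + 1 = 2 from rfl, ch_two]
    rw [h1, one_step μ hμ m _ (B_loc 1 m x), ts_two]
    apply le_of_eq
    ring

end

/-- two walkers: a coupling with `p = 1/3` -/
theorem third : Coupling 2 (1 / 3) := by
  obtain ⟨μ₁, hμ₁, hμ⟩ := ind w3 w3_nonneg w3_sum
  have hmeas : ∀ (j t : ℕ), Measurable (Xc j t) := by
    intro j t
    have h1 : MeasurableSet {ω | Xc j t ω = true} := by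
      apply meas μ₁ hμ (t + 1)
      intro ω ω' h
      simp only [Set.mem_setOf_eq, Xc]
      rw [ch_loc ω ω' (t + 1) h]
    exact measurable_to_bool (by
      have h2 : Xc j t ⁻¹' {true} = {ω | Xc j t ω = true} := rfl
      rw [h2]; exact h1)
  obtain ⟨Ω, mΩ, μ, Y, f, hμp, hYm, hYw, hYf⟩ := thin (Fin 2) (ℕ → Inn) inferInstance μ₁
    (fun j t => Xc j t) (1 / 3) hμ₁ (by norm_num) (fun j t => hmeas j t)
    (fun j m x => cond μ₁ hμ j j.2 m x)
  refine ⟨Ω, mΩ, μ, Y, hμp, hYm, hYw, Filter.Eventually.of_forall ?_⟩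
  intro ω t t' j j' h1 h2 ⟨h3, h4⟩
  have h5 := hYf ω j t h3
  have h6 := hYf ω j' t' h4
  simp only [Xc, decide_eq_true_eq] at h5 h6
  have hj := j.2
  have hj' := j'.2
  rcases Nat.lt_or_ge t t' with h | h
  · have h7 : t' = t + 1 := by omega
    have h8 : (j : ℕ) = 1 := by omega
    have h9 : (j' : ℕ) = 0 := by omega
    subst h7
    rw [h8] at h5
    rw [h9, show (0 : ℕ) + 1 = 1 from rfl, ch_one] at h6
    omega
  · have h7 : t' = t := by omega
    subst h7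
    omega

end Pool.Agent.R130.AV.Third
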