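import Pool.Agent.R130.AV.Defs

/-!
# UB and TWO: upper bounds
-/

set_option autoImplicit false

open MeasureTheory Finset

namespace Pool.Agent.R130.AV

theorem ub : StmUB := by
  intro k p hC
  obtain ⟨Ω, mΩ, μ, X, hP, hM, hL, hA⟩ := hC
  have hE : ∀ j : Fin k, μ.real {ω | X j 0 ω = true} = p := by
    intro j
    have h := hL j 1 (fun _ => true)
    simp only [Fin.forall_fin_one, Fin.prod_univ_one, if_true] at h
    exact h
  have hms : ∀ j : Fin k, MeasurableSet {ω | X j 0 ω = true} := by
    intro j
    exact hM j 0 (measurableSet_singleton true)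
  have hd : Pairwise (Function.onFun (AEDisjoint μ) (fun j : Fin k => {ω | X j 0 ω = true})) := by
    have key : ∀ j j' : Fin k, (j : ℕ) < j' →
        AEDisjoint μ {ω | X j 0 ω = true} {ω | X j' 0 ω = true} := by
      intro j j' hjj
      have h1 : ∀ᵐ ω ∂μ, ω ∉ ({ω | X j 0 ω = true} ∩ {ω | X j' 0 ω = true}) := by
        filter_upwards [hA] with ω hω h
        refine hω 0 0 j j' (by omega) (by have := j'.2; omega) ⟨h.1, h.2⟩
      have h2 := ae_iff.mp h1
      have h3 : {a | ¬ a ∉ ({ω | X j 0 ω = true} ∩ {ω | X j' 0 ω = true})} =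
          ({ω | X j 0 ω = true} ∩ {ω | X j' 0 ω = true}) := by
        ext a
        exact not_not
      rw [h3] at h2
      exact h2
    intro j j' hne
    rcases Nat.lt_or_gt_of_ne (fun h => hne (Fin.ext h)) with h | h
    · exact key j j' h
    · exact (key j' j h).symm
  have h1 := measure_iUnion₀ hd (fun j => (hms j).nullMeasurableSet)
  have h2 : μ (⋃ j : Fin k, {ω | X j 0 ω = true}) ≤ 1 := prob_le_one
  rw [h1, tsum_fintype] at h2
  have h3 : ∑ j : Fin k, μ.real {ω | X j 0 ω = true} ≤ 1 := by
    unfold Measure.real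
    rw [← ENNReal.toReal_sum (fun j _ => measure_ne_top μ _)]
    exact ENNReal.toReal_le_of_le_ofReal (by norm_num) (by simpa using h2)
  simp only [hE, Finset.sum_const, Finset.card_univ, Fintype.card_fin, nsmul_eq_mul] at h3
  exact h3

/-- no two consecutive zeros (with previous letter `b`) -/
def okB : (n : ℕ) → Bool → (Fin n → Bool) → Bool
  | 0, _, _ => true
  | n + 1, b, y => (b || y 0) && okB n (y 0) (fun i => y i.succ)

theorem okB_spec : ∀ (n : ℕ) (b : Bool) (y : Fin n → Bool), okB n b y = true →
    ∀ (i : ℕ) (h : i + 1 < n), y ⟨i, by omega⟩ = true ∨ y ⟨i + 1, h⟩ = true := by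
  intro n
  induction n with
  | zero => intro b y _ i h; omega
  | succ n ih =>
    intro b y hy i h
    unfold okB at hy
    rw [Bool.and_eq_true] at hy
    cases i with
    | zero =>
      cases n with
      | zero => omega
      | succ n =>
        have h2 := hy.2
        unfold okB at h2
        rw [Bool.and_eq_true, Bool.or_eq_true] at h2
        exact h2.1
    | succ i =>
      exact ih _ _ hy.2 i (by omega)

/-- total weights -/
noncomputable def wS (p : ℝ) : ℕ → Bool → ℝ
  | 0, _ => 1
  | n + 1, b => p * wS p n true + (if b = true then (1 - p) * wS p n false else 0)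

theorem sum_okB (p : ℝ) : ∀ (n : ℕ) (b : Bool),
    ∑ y : Fin n → Bool, (if okB n b y = true then ∏ i, (if y i = true then p else 1 - p) else 0) =
      wS p n b := by
  intro n
  induction n with
  | zero =>
    intro b
    simp [okB, wS]
  | succ n ih =>
    intro b
    rw [← (Fin.consEquiv (fun _ : Fin (n + 1) => Bool)).sum_comp, Fintype.sum_prod_type]
    rw [Fintype.sum_bool]
    have e : ∀ (c : Bool) (y : Fin n → Bool),
        (if okB (n + 1) b ((Fin.consEquiv (fun _ : Fin (n + 1) => Bool)) (c, y)) = true then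
          ∏ i, (if ((Fin.consEquiv (fun _ : Fin (n + 1) => Bool)) (c, y)) i = true then p
            else 1 - p) else 0) =
        (if (b || c) = true then (if c = true then p else 1 - p) *
          (if okB n c y = true then ∏ i, (if y i = true then p else 1 - p) else 0) else 0) := by
      intro c y
      have h1 : okB (n + 1) b ((Fin.consEquiv (fun _ : Fin (n + 1) => Bool)) (c, y)) =
          ((b || c) && okB n c y) := by
        show ((b || (Fin.cons c y : Fin (n + 1) → Bool) 0) &&
          okB n ((Fin.cons c y : Fin (n + 1) → Bool) 0)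
            (fun i => (Fin.cons c y : Fin (n + 1) → Bool) i.succ)) = _
        simp only [Fin.cons_zero, Fin.cons_succ]
      rw [h1, Fin.prod_univ_succ]
      have h2 : ((Fin.consEquiv (fun _ : Fin (n + 1) => Bool)) (c, y)) 0 = c := by
        show (Fin.cons c y : Fin (n + 1) → Bool) 0 = c
        simp
      have h3 : ∀ i : Fin n, ((Fin.consEquiv (fun _ : Fin (n + 1) => Bool)) (c, y)) i.succ = y i := by
        intro i
        show (Fin.cons c y : Fin (n + 1) → Bool) i.succ = y i
        simp
      rw [h2]
      simp only [h3]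
      cases hb : (b || c) <;> cases hk : okB n c y <;> simp
    simp only [e]
    unfold wS
    rw [← ih true, ← ih false]
    cases b
    · simp [Finset.mul_sum]
    · simp [Finset.mul_sum]

theorem wS_lower {p : ℝ} (hp : 0 ≤ p) (hp1 : p ≤ 1) (h2 : 1 - p ≤ 2 * p) : ∀ N : ℕ,
    (2 * p * (1 - p)) ^ N ≤ wS p (2 * N) true ∧
      (1 - p) * (2 * p * (1 - p)) ^ N ≤ wS p (2 * N + 1) true := by
  have hrec : ∀ n, wS p (n + 2) true = p * wS p (n + 1) true + p * (1 - p) * wS p n true := by
    intro n
    show p * wS p (n + 1) true + (if (true : Bool) = true then (1 - p) * wS p (n + 1) false else 0) = _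
    rw [if_pos rfl]
    have : wS p (n + 1) false = p * wS p n true := by
      show p * wS p n true + (if (false : Bool) = true then (1 - p) * wS p n false else 0) = _
      simp
    rw [this]
    ring
  have hq : 0 ≤ 1 - p := by linarith
  intro N
  induction N with
  | zero =>
    constructor
    · simp [wS]
    · have : wS p (2 * 0 + 1) true = 1 := by
        show p * 1 + (if (true : Bool) = true then (1 - p) * 1 else 0) = 1
        simp
      rw [this]
      simp
      exact hp
  | succ N ih =>
    obtain ⟨i1, i2⟩ := ih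
    have hx : 0 ≤ (2 * p * (1 - p)) ^ N := by positivity
    have a1 : (2 * p * (1 - p)) ^ (N + 1) ≤ wS p (2 * N + 2) true := by
      rw [hrec, pow_succ]
      have b1 : p * ((1 - p) * (2 * p * (1 - p)) ^ N) ≤ p * wS p (2 * N + 1) true :=
        mul_le_mul_of_nonneg_left i2 hp
      have b2 : p * (1 - p) * (2 * p * (1 - p)) ^ N ≤ p * (1 - p) * wS p (2 * N) true :=
        mul_le_mul_of_nonneg_left i1 (by positivity)
      linarith
    refine ⟨a1, ?_⟩
    show _ ≤ wS p ((2 * N + 1) + 2) true
    rw [hrec]
    have b1 : p * (2 * p * (1 - p)) ^ (N + 1) ≤ p * wS p (2 * N + 2) true :=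
      mul_le_mul_of_nonneg_left a1 hp
    have b2 : p * (1 - p) * ((1 - p) * (2 * p * (1 - p)) ^ N) ≤
        p * (1 - p) * wS p (2 * N + 1) true :=
      mul_le_mul_of_nonneg_left i2 (by positivity)
    have b3 : (1 - p) * (2 * p * (1 - p)) ^ (N + 1) ≤
        p * (2 * p * (1 - p)) ^ (N + 1) + p * (1 - p) * ((1 - p) * (2 * p * (1 - p)) ^ N) := by
      rw [pow_succ]
      have e1 : p * ((2 * p * (1 - p)) ^ N * (2 * p * (1 - p))) +
          p * (1 - p) * ((1 - p) * (2 * p * (1 - p)) ^ N) -
          (1 - p) * ((2 * p * (1 - p)) ^ N * (2 * p * (1 - p))) =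
          (2 * p * (1 - p)) ^ N * (p * (1 - p)) * (2 * p - (1 - p)) := by ring
      have e2 : 0 ≤ (2 * p * (1 - p)) ^ N * (p * (1 - p)) * (2 * p - (1 - p)) := by
        have : 0 ≤ 2 * p - (1 - p) := by linarith
        positivity
      linarith
    linarith

theorem two0 : StmTwo := by
  intro p hp hC
  have hub := ub 2 p hC
  push_cast at hub
  by_contra hcon
  push Not at hcon
  obtain ⟨Ω, mΩ, μ, X, hP, hM, hL, hA⟩ := hC
  have hq : 0 < 1 - p := by linarith
  -- the measure of the good words
  have hW : ∀ n : ℕ, μ.real {ω | okB n true (fun i : Fin n => X 0 i ω) = true} = wS p n true := by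
    intro n
    have hset : {ω | okB n true (fun i : Fin n => X 0 i ω) = true} =
        ⋃ y ∈ (Finset.univ.filter (fun y : Fin n → Bool => okB n true y = true)),
          {ω | ∀ i : Fin n, X 0 i ω = y i} := by
      ext ω
      simp only [Set.mem_ofPred_eq, Set.mem_iUnion, Finset.mem_filter, Finset.mem_univ, true_and,
        exists_prop]
      constructor
      · intro h
        exact ⟨fun i => X 0 i ω, h, fun i => rfl⟩
      · rintro ⟨y, hy, h⟩
        have : (fun i : Fin n => X 0 i ω) = y := funext h
        rw [this]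
        exact hy
    rw [hset, measureReal_biUnion_finset]
    · rw [← sum_okB, ← Finset.sum_filter]
      exact Finset.sum_congr rfl (fun y _ => hL 0 n y)
    · intro y _ y' _ hne
      rw [Function.onFun, Set.disjoint_left]
      intro ω h h'
      apply hne
      funext i
      rw [← h i, ← h' i]
    · intro y _
      have : {ω | ∀ i : Fin n, X 0 i ω = y i} = ⋂ i : Fin n, {ω | X 0 i ω = y i} := by
        ext ω; simp
      rw [this]
      exact MeasurableSet.iInter (fun i => hM 0 i (measurableSet_singleton (y i)))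
  have hbound : ∀ m : ℕ, wS p (m + 1) true ≤ (1 - p) ^ m := by
    intro m
    rw [← hW (m + 1)]
    have h1 := hL 1 m (fun _ => false)
    have h2 : ∏ i : Fin m, (if (fun _ : Fin m => false) i = true then p else 1 - p) =
        (1 - p) ^ m := by
      simp
    rw [h2] at h1
    rw [← h1]
    unfold Measure.real
    refine ENNReal.toReal_mono (measure_ne_top μ _) (measure_mono_ae ?_)
    filter_upwards [hA] with ω hω h
    have h3 : okB (m + 1) true (fun i : Fin (m + 1) => X 0 i ω) = true := h
    have h4 := okB_spec _ _ _ h3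
    show ∀ i : Fin m, X 1 i ω = false
    intro i
    by_contra hne
    have h5 : X 1 i ω = true := by
      cases hX : X 1 i ω
      · exact absurd hX hne
      · rfl
    rcases h4 i.1 (by have := i.2; omega) with h6 | h6
    · exact hω i.1 i.1 0 1 (by simp) (by simp) ⟨h6, h5⟩
    · exact hω i.1 (i.1 + 1) 1 0 (by simp; omega) (by simp; omega) ⟨h5, h6⟩
  have hlow := wS_lower hp (by linarith) (by linarith : 1 - p ≤ 2 * p)
  have hall : ∀ N : ℕ, (1 - p) * (2 * p / (1 - p)) ^ (N + 1) ≤ 1 := by
    intro N
    have h1 := (hlow (N + 1)).1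
    have h2 := hbound (2 * N + 1)
    have h3 : (2 * p * (1 - p)) ^ (N + 1) ≤ (1 - p) ^ (2 * N + 1) := h1.trans h2
    have h4 : (1 - p) * (2 * p / (1 - p)) ^ (N + 1) =
        (2 * p * (1 - p)) ^ (N + 1) / (1 - p) ^ (2 * N + 1) := by
      have h5 : (1 - p) ^ (2 * N + 1) * (1 - p) = (1 - p) ^ (N + 1) * (1 - p) ^ (N + 1) := by ring
      rw [div_pow, mul_pow (2 * p) (1 - p), mul_div_assoc', div_eq_div_iff (by positivity)
        (by positivity)]
      linear_combination (2 * p) ^ (N + 1) * h5
    rw [h4, div_le_one (by positivity)]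
    exact h3
  have hgt : 1 < 2 * p / (1 - p) := by
    rw [lt_div_iff₀ hq]
    linarith
  obtain ⟨N, hN⟩ := pow_unbounded_of_one_lt (1 / (1 - p)) hgt
  have h5 := hall N
  have h6 : (2 * p / (1 - p)) ^ N ≤ (2 * p / (1 - p)) ^ (N + 1) :=
    pow_le_pow_right₀ hgt.le (Nat.le_succ N)
  have h7 : 1 < (1 - p) * (2 * p / (1 - p)) ^ (N + 1) := by
    have h8 : 1 / (1 - p) < (2 * p / (1 - p)) ^ (N + 1) := hN.trans_le h6
    rw [div_lt_iff₀ hq] at h8
    linarith
  linarith

theorem two : StmUB ∧ StmTwo := ⟨ub, two0⟩

end Pool.Agent.R130.AV
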