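import Pool.Agent.R130.AV.Defs

/-!
# WS: the weights of the innovations
-/

set_option autoImplicit false

open MeasureTheory Finset

namespace Pool.Agent.R130.AV

/-- sum of a product function with finite support -/
theorem Ws.prod (k T : ℕ) (f : Bool → ℝ) (g h : ℕ → ℝ) :
    HasSum (fun i : Inn => f i.1 * (if i.2.1 < k then g i.2.1 else 0) *
      (if i.2.2 ≤ T then h i.2.2 else 0))
      ((f true + f false) * (∑ i ∈ range k, g i) * (∑ i ∈ range (T + 1), h i)) := by
  have h1 : HasSum (fun i : Inn => f i.1 * (if i.2.1 < k then g i.2.1 else 0) *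
      (if i.2.2 ≤ T then h i.2.2 else 0))
      (∑ i ∈ (univ : Finset Bool) ×ˢ ((range k) ×ˢ (range (T + 1))),
        f i.1 * (if i.2.1 < k then g i.2.1 else 0) * (if i.2.2 ≤ T then h i.2.2 else 0)) := by
    apply hasSum_sum_of_ne_finset_zero
    rintro ⟨b, J, t⟩ hb
    simp only [mem_product, mem_univ, mem_range, true_and, not_and_or, not_lt] at hb
    rcases hb with hb | hb
    · simp only
      rw [if_neg (by omega)]; simp
    · simp only
      rw [if_neg (show ¬ t ≤ T by omega)]; simp
  convert h1 using 1
  rw [sum_product]
  simp only [Fintype.sum_bool]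
  rw [sum_product, sum_product]
  have e1 : ∀ b : Bool, ∑ x ∈ range k, ∑ y ∈ range (T + 1),
      f b * (if x < k then g x else 0) * (if y ≤ T then h y else 0) =
      f b * (∑ i ∈ range k, g i) * (∑ i ∈ range (T + 1), h i) := by
    intro b
    rw [mul_assoc, sum_mul_sum, mul_sum]
    apply sum_congr rfl
    intro x hx
    rw [mul_sum]
    apply sum_congr rfl
    intro y hy
    rw [mem_range] at hx hy
    rw [if_pos hx, if_pos (by omega), mul_assoc]
  rw [e1 true, e1 false]
  ring

theorem ws : StmWs := by
  intro k T p δ ρ e hW
  have hρs := hW.hρs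
  have hes := hW.hes
  refine ⟨?_, ?_, ?_, ?_, ?_, ?_⟩
  · intro i
    unfold wt
    have h1 := hW.hδ0
    have h2 := hW.hδ1
    have h3 := hW.hρ i.2.1
    have h4 := hW.he i.2.2
    have h5 : 0 ≤ 1 - δ := by linarith
    split_ifs <;> positivity
  · have := Ws.prod k T (fun b => if b = true then δ else 1 - δ) ρ e
    rw [hρs, hes] at this
    have hv : (((if true = true then δ else 1 - δ) + if false = true then δ else 1 - δ) * 1 * 1)
        = (1 : ℝ) := by simp
    rw [hv] at this
    exact this
  · have := Ws.prod k T (fun b => if b = true then δ else 0) ρ e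
    rw [hρs, hes] at this
    have h2 := this.tsum_eq
    simp only [if_true, Bool.false_eq_true, if_false, add_zero, mul_one] at h2
    refine Eq.trans ?_ h2
    apply tsum_congr
    rintro ⟨b, J, t⟩
    cases b <;> simp [Set.indicator, wt]
  · have := Ws.prod k T (fun b => if b = true then 0 else 1 - δ) ρ e
    rw [hρs, hes] at this
    have h2 := this.tsum_eq
    simp only [if_true, Bool.false_eq_true, if_false, zero_add, mul_one] at h2
    refine Eq.trans ?_ h2
    apply tsum_congr
    rintro ⟨b, J, t⟩
    cases b <;> simp [Set.indicator, wt]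
  · intro J hJ
    have := Ws.prod k T (fun b => if b = true then 0 else 1 - δ) (fun i => if i = J then ρ i else 0) e
    rw [hes, sum_ite_eq_of_mem' (range k) J ρ (mem_range.2 hJ)] at this
    have h2 := this.tsum_eq
    simp only [if_true, Bool.false_eq_true, if_false, zero_add, mul_one] at h2
    refine Eq.trans ?_ h2
    apply tsum_congr
    rintro ⟨b, J', t⟩
    by_cases hJ' : J' = J
    · cases b <;> simp [Set.indicator, wt, hJ']
    · cases b <;> simp [Set.indicator, hJ']
  · intro τ hτ
    have := Ws.prod k T (fun b => if b = true then 0 else 1 - δ) ρ (fun i => if i = τ then e i else 0)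
    rw [hρs, sum_ite_eq_of_mem' (range (T + 1)) τ e (mem_range.2 (by omega))] at this
    have h2 := this.tsum_eq
    simp only [if_true, Bool.false_eq_true, if_false, zero_add, mul_one] at h2
    refine Eq.trans ?_ h2
    apply tsum_congr
    rintro ⟨b, J', t⟩
    by_cases hJ' : t = τ
    · cases b <;> simp [Set.indicator, wt, hJ']
    · cases b <;> simp [Set.indicator, hJ']

end Pool.Agent.R130.AV
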