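import Pool.Agent.R130.AV.Main
import Pool.Agent.R130.AV.Det
import Pool.Agent.R130.AV.Ind
import Pool.Agent.R130.AV.Ws
import Pool.Agent.R130.AV.Chain
import Pool.Agent.R130.AV.Thin
import Pool.Agent.R130.AV.Param
import Pool.Agent.R130.AV.Two
import Pool.Agent.R130.AV.Third

set_option autoImplicit false

open Filter Topology

namespace Pool.Agent.R130.AV

theorem asymptotics : Tendsto (fun k : ℕ => (k : ℝ) * pk k) atTop (𝓝 1) :=
  main (chain ind ws det) thin det param two.1

theorem pk_two : pk 2 = 1 / 3 := by
  apply le_antisymm (pk_two_le two.2)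
  exact le_csSup (bdd 2) ⟨by norm_num, by norm_num, Third.third⟩

end Pool.Agent.R130.AV
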