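import Pool.Agent.R130.AV.LogDefs

/-!
# The logarithmic upper bound: the limit (piece L8)
-/

set_option autoImplicit false

open MeasureTheory Finset Filter Topology

namespace Pool.Agent.R130.AV.Log

namespace AnaP

/-- the coefficient -/
noncomputable def c (p : ℝ) (d : ℕ) : ℝ := p ^ 2 * (1 - p) ^ (d - 1) / ((d : ℝ) - 1)

lemma c_nonneg {p : ℝ} (h1 : p < 1) {d : ℕ} (hd : 2 ≤ d) : 0 ≤ c p d := by
  unfold c
  have h2 : (2 : ℝ) ≤ d := by exact_mod_cast hd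
  have h3 : (0 : ℝ) ≤ (1 - p) ^ (d - 1) := pow_nonneg (by linarith) _
  exact div_nonneg (mul_nonneg (sq_nonneg p) h3) (by linarith)

lemma step {k : ℕ} {p : ℝ} (h1 : p < 1)
    (h : ∀ n : ℕ, (k : ℝ) * ((n : ℝ) * p +
      ∑ d ∈ Ico 2 n, ((n : ℝ) - d) * (p ^ 2 * (1 - p) ^ (d - 1)) / ((d : ℝ) - 1)) ≤ n) (M : ℕ) :
    (k : ℝ) * (p + ∑ d ∈ Ico 2 M, c p d) ≤ 1 := by
  by_contra hcon
  push Not at hcon
  set A : ℝ := ∑ d ∈ Ico 2 M, c p d with hA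
  set B : ℝ := ∑ d ∈ Ico 2 M, (d : ℝ) * c p d with hB
  obtain ⟨n, hn⟩ := exists_nat_gt ((k : ℝ) * B / ((k : ℝ) * (p + A) - 1))
  have hpos : 0 < (k : ℝ) * (p + A) - 1 := by linarith
  rw [div_lt_iff₀ hpos] at hn
  have h2 := h (n + M)
  have h3 : ∑ d ∈ Ico 2 M, (((n + M : ℕ) : ℝ) - d) * c p d ≤ ∑ d ∈ Ico 2 (n + M),
      (((n + M : ℕ) : ℝ) - d) * (p ^ 2 * (1 - p) ^ (d - 1)) / ((d : ℝ) - 1) := by
    have h4 : ∑ d ∈ Ico 2 (n + M),
        (((n + M : ℕ) : ℝ) - d) * (p ^ 2 * (1 - p) ^ (d - 1)) / ((d : ℝ) - 1) =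
        ∑ d ∈ Ico 2 (n + M), (((n + M : ℕ) : ℝ) - d) * c p d := by
      refine Finset.sum_congr rfl fun d _ => ?_
      unfold c
      ring
    rw [h4]
    refine Finset.sum_le_sum_of_subset_of_nonneg ?_ ?_
    · intro d hd
      rw [Finset.mem_Ico] at hd ⊢
      omega
    · intro d hd _
      rw [Finset.mem_Ico] at hd
      have h5 : (d : ℝ) ≤ ((n + M : ℕ) : ℝ) := by exact_mod_cast hd.2.le
      exact mul_nonneg (by linarith) (c_nonneg h1 hd.1)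
  have h6 : ∑ d ∈ Ico 2 M, (((n + M : ℕ) : ℝ) - d) * c p d = ((n + M : ℕ) : ℝ) * A - B := by
    rw [hA, hB, Finset.mul_sum, ← Finset.sum_sub_distrib]
    exact Finset.sum_congr rfl fun d _ => by ring
  rw [h6] at h3
  have h7 : (k : ℝ) * (((n + M : ℕ) : ℝ) * p + (((n + M : ℕ) : ℝ) * A - B)) ≤
      ((n + M : ℕ) : ℝ) :=
    le_trans (mul_le_mul_of_nonneg_left (by linarith) (Nat.cast_nonneg k)) h2
  have h8 : ((n + M : ℕ) : ℝ) * ((k : ℝ) * (p + A) - 1) ≤ (k : ℝ) * B := by nlinarith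
  have h9 : (n : ℝ) ≤ ((n + M : ℕ) : ℝ) := by exact_mod_cast Nat.le_add_right n M
  have h10 : (n : ℝ) * ((k : ℝ) * (p + A) - 1) ≤ ((n + M : ℕ) : ℝ) * ((k : ℝ) * (p + A) - 1) :=
    mul_le_mul_of_nonneg_right h9 hpos.le
  linarith

lemma sum_eq (p : ℝ) (N : ℕ) : ∑ d ∈ Ico 2 (N + 2), c p d =
    p ^ 2 * ∑ i ∈ range N, (1 - p) ^ (i + 1) / ((i : ℝ) + 1) := by
  rw [Finset.sum_Ico_eq_sum_range, Finset.mul_sum]
  have : N + 2 - 2 = N := by omega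
  rw [this]
  refine Finset.sum_congr rfl fun i _ => ?_
  unfold c
  have h1 : 2 + i - 1 = i + 1 := by omega
  have h2 : ((2 + i : ℕ) : ℝ) - 1 = (i : ℝ) + 1 := by push_cast; ring
  rw [h1, h2]
  ring

end AnaP

theorem ana : StmAna := by
  intro k p hp hp1 h
  have h1 : |1 - p| < 1 := by
    rw [abs_lt]
    constructor <;> linarith
  have h2 := (Real.hasSum_pow_div_log_of_abs_lt_one h1).tendsto_sum_nat
  have h3 : -Real.log (1 - (1 - p)) = Real.log (1 / p) := by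
    rw [one_div, Real.log_inv]
    congr 2
    ring
  rw [h3] at h2
  have h4 : Tendsto (fun N : ℕ => (k : ℝ) * (p + p ^ 2 *
      ∑ i ∈ range N, (1 - p) ^ (i + 1) / ((i : ℝ) + 1))) atTop
      (𝓝 ((k : ℝ) * (p + p ^ 2 * Real.log (1 / p)))) :=
    ((h2.const_mul (p ^ 2)).const_add p).const_mul (k : ℝ)
  have h5 : (k : ℝ) * (p + p ^ 2 * Real.log (1 / p)) ≤ 1 := by
    refine le_of_tendsto' h4 fun N => ?_
    rw [← AnaP.sum_eq]
    exact AnaP.step hp1 h (N + 2)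
  calc (k : ℝ) * p * (1 + p * Real.log (1 / p)) = (k : ℝ) * (p + p ^ 2 * Real.log (1 / p)) := by
        ring
    _ ≤ 1 := h5

end Pool.Agent.R130.AV.Log
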