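import Pool.Agent.R130.AV.LogDefs

/-!
# L4: averaging over the permutations of the walkers
-/

set_option autoImplicit false

open MeasureTheory Finset

namespace Pool.Agent.R130.AV.Log

namespace AvgAux

theorem card_between {k : ℕ} (hk : 0 < k) (O : Finset ℕ)
    (hsep : ∀ x ∈ O, ∀ y ∈ O, x < y → x + k ≤ y) {a b : ℕ} (ha : a ∈ O) (hb : b ∈ O)
    (hab : a + 2 * k ≤ b) (hmod : a % k = b % k)
    (hne : ∀ u ∈ O, a < u → u < b → u % k ≠ a % k) :
    (O.filter (fun u => a < u ∧ u < b)).card + 2 ≤ (b - a) / k := by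
  set d := (b - a) / k with hd
  have hdvd : k ∣ b - a := (Nat.modEq_iff_dvd' (by omega)).1 hmod
  have hdk : d * k = b - a := Nat.div_mul_cancel hdvd
  have h2 : 2 ≤ d := by
    rw [hd, Nat.le_div_iff_mul_le hk]
    omega
  have hmaps : ∀ u ∈ O.filter (fun u => a < u ∧ u < b), (u - a) / k ∈ Finset.Ico 1 (d - 1) := by
    intro u hu
    rw [Finset.mem_filter] at hu
    obtain ⟨huO, h3, h4⟩ := hu
    have h5 := hsep a ha u huO h3
    have h6 := hsep u huO b hb h4
    rw [Finset.mem_Ico]
    refine ⟨(Nat.le_div_iff_mul_le hk).2 (by omega), ?_⟩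
    rw [Nat.div_lt_iff_lt_mul hk]
    have h7 : (d - 1) * k = d * k - k := by rw [Nat.sub_mul, one_mul]
    rcases Nat.lt_or_ge (u - a) ((d - 1) * k) with h8 | h8
    · exact h8
    · exfalso
      have h9 : u = a + (d - 1) * k := by omega
      apply hne u huO h3 h4
      rw [h9, Nat.add_mul_mod_self_right]
  have hinj : Set.InjOn (fun u => (u - a) / k) (O.filter (fun u => a < u ∧ u < b) : Set ℕ) := by
    have key : ∀ u ∈ O.filter (fun u => a < u ∧ u < b), ∀ u' ∈ O.filter (fun u => a < u ∧ u < b),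
        u < u' → (u - a) / k < (u' - a) / k := by
      intro u hu u' hu' hlt
      rw [Finset.mem_filter] at hu hu'
      have h3 := hsep u hu.1 u' hu'.1 hlt
      have h4 : (u - a) / k + 1 = (u - a + k) / k := (Nat.add_div_right _ hk).symm
      have h5 : (u - a + k) / k ≤ (u' - a) / k := Nat.div_le_div_right (by omega)
      omega
    intro u hu u' hu' he
    by_contra hne'
    rcases Nat.lt_or_gt_of_ne hne' with h | h
    · have := key u hu u' hu' h
      simp only at he
      omega
    · have := key u' hu' u hu h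
      simp only at he
      omega
  have hc := Finset.card_le_card_of_injOn (fun u => (u - a) / k) hmaps hinj
  rw [Nat.card_Ico] at hc
  omega

end AvgAux

open AvgAux in
theorem avg : StmDetN → StmPerm → StmAvg := by
  intro hD hP k n O hk hO hsep
  classical
  have hmod : ∀ x, x % k < k := fun x => Nat.mod_lt _ hk
  let pr : Equiv.Perm (Fin k) → ℕ → ℕ := fun σ i => if h : i < k then (σ ⟨i, h⟩ : ℕ) else 0
  have hpr : ∀ σ x, pr σ (x % k) = (σ ⟨x % k, hmod x⟩ : ℕ) := by
    intro σ x
    simp only [pr]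
    rw [dif_pos (hmod x)]
  have hprinj : ∀ σ, ∀ i < k, ∀ j < k, pr σ i = pr σ j → i = j := by
    intro σ i hi j hj h
    simp only [pr] at h
    rw [dif_pos hi, dif_pos hj] at h
    have h2 := σ.injective (Fin.ext h)
    exact congrArg Fin.val h2
  have h1 : ∀ σ, O.card + (retP k (pr σ) O).card ≤ n := fun σ =>
    hD k n O (pr σ) hk (hprinj σ) hO hsep
  let C : Equiv.Perm (Fin k) → ℕ × ℕ → Prop := fun σ q =>
    ∀ u ∈ O, q.1 < u → u < q.2 → pr σ (q.1 % k) < pr σ (u % k)
  have h2 : ∑ σ : Equiv.Perm (Fin k), (O.card + (retP k (pr σ) O).card) ≤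
      ∑ _σ : Equiv.Perm (Fin k), n := Finset.sum_le_sum fun σ _ => h1 σ
  rw [Finset.sum_add_distrib, Finset.sum_const, Finset.sum_const, Finset.card_univ,
    Fintype.card_perm, Fintype.card_fin, smul_eq_mul, smul_eq_mul] at h2
  have h3 : ∑ σ : Equiv.Perm (Fin k), (retP k (pr σ) O).card =
      ∑ q ∈ ret k O, (univ.filter (fun σ : Equiv.Perm (Fin k) => C σ q)).card := by
    have e1 : ∀ σ : Equiv.Perm (Fin k), (retP k (pr σ) O).card =
        ∑ q ∈ ret k O, if C σ q then 1 else 0 := by
      intro σ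
      rw [retP, Finset.card_filter]
    rw [Finset.sum_congr rfl fun σ _ => e1 σ, Finset.sum_comm]
    apply Finset.sum_congr rfl
    intro q _
    rw [Finset.card_filter]
  rw [h3] at h2
  have hfac : (0 : ℝ) < (k.factorial : ℝ) := by exact_mod_cast Nat.factorial_pos k
  have h4 : ∀ q ∈ ret k O, (k.factorial : ℝ) * (1 / ((((q.2 - q.1) / k : ℕ) : ℝ) - 1)) ≤
      ((univ.filter (fun σ : Equiv.Perm (Fin k) => C σ q)).card : ℝ) := by
    intro q hq
    rw [ret, Finset.mem_filter, Finset.mem_product] at hq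
    obtain ⟨⟨ha, hb⟩, hab, hm, hne⟩ := hq
    set U := O.filter (fun u => q.1 < u ∧ u < q.2) with hU
    set j : Fin k := ⟨q.1 % k, hmod _⟩ with hj
    set T : Finset (Fin k) := insert j (U.image (fun u => (⟨u % k, hmod u⟩ : Fin k))) with hT
    have hcard : U.card + 2 ≤ (q.2 - q.1) / k := by
      rw [hU]
      exact card_between hk O hsep ha hb hab hm hne
    have hTc : T.card ≤ U.card + 1 :=
      (Finset.card_insert_le _ _).trans (Nat.add_le_add_right Finset.card_image_le 1)
    have hjT : j ∈ T := Finset.mem_insert_self _ _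
    have hTpos : 0 < T.card := Finset.card_pos.2 ⟨j, hjT⟩
    have hperm := hP k T j hjT
    have hset : (univ.filter (fun σ : Equiv.Perm (Fin k) => C σ q)) =
        univ.filter (fun σ : Equiv.Perm (Fin k) => ∀ i ∈ T, i ≠ j → σ j < σ i) := by
      apply Finset.filter_congr
      intro σ _
      constructor
      · intro h i hi hij
        rw [hT, Finset.mem_insert] at hi
        rcases hi with hi | hi
        · exact absurd hi hij
        · rw [Finset.mem_image] at hi
          obtain ⟨u, hu, rfl⟩ := hi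
          rw [hU, Finset.mem_filter] at hu
          have h5 := h u hu.1 hu.2.1 hu.2.2
          rw [hpr, hpr] at h5
          exact h5
      · intro h u hu h5 h6
        rw [hpr, hpr]
        have h7 : (⟨u % k, hmod u⟩ : Fin k) ∈ T := by
          rw [hT]
          apply Finset.mem_insert_of_mem
          apply Finset.mem_image_of_mem (fun u => (⟨u % k, hmod u⟩ : Fin k))
          rw [hU, Finset.mem_filter]
          exact ⟨hu, h5, h6⟩
        have h8 : (⟨u % k, hmod u⟩ : Fin k) ≠ j := by
          intro h9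
          exact hne u hu h5 h6 (congrArg Fin.val h9)
        exact h _ h7 h8
    rw [hset]
    have hTr : (0 : ℝ) < (T.card : ℝ) := by exact_mod_cast hTpos
    have hdr : (T.card : ℝ) ≤ (((q.2 - q.1) / k : ℕ) : ℝ) - 1 := by
      have h5 : T.card + 1 ≤ (q.2 - q.1) / k := by omega
      have h6 : ((T.card + 1 : ℕ) : ℝ) ≤ (((q.2 - q.1) / k : ℕ) : ℝ) := by exact_mod_cast h5
      push_cast at h6 ⊢
      linarith
    have hcr : ((univ.filter (fun σ : Equiv.Perm (Fin k) =>
        ∀ i ∈ T, i ≠ j → σ j < σ i)).card : ℝ) * (T.card : ℝ) = (k.factorial : ℝ) := by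
      exact_mod_cast hperm
    rw [← hcr, mul_one_div, div_le_iff₀ (lt_of_lt_of_le hTr hdr)]
    exact mul_le_mul_of_nonneg_left hdr (Nat.cast_nonneg _)
  have h5 : (k.factorial : ℝ) * (O.card : ℝ) +
      ∑ q ∈ ret k O, (k.factorial : ℝ) * (1 / ((((q.2 - q.1) / k : ℕ) : ℝ) - 1)) ≤
      (k.factorial : ℝ) * (n : ℝ) := by
    have h6 : (k.factorial : ℝ) * (O.card : ℝ) +
        ∑ q ∈ ret k O, ((univ.filter (fun σ : Equiv.Perm (Fin k) => C σ q)).card : ℝ) ≤
        (k.factorial : ℝ) * (n : ℝ) := by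
      exact_mod_cast h2
    have h7 := Finset.sum_le_sum h4
    linarith
  rw [← Finset.mul_sum, ← mul_add] at h5
  exact le_of_mul_le_mul_left h5 hfac

end Pool.Agent.R130.AV.Log
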