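import Pool.Agent.R130.AV.LogDefs

set_option autoImplicit false

open MeasureTheory Finset

namespace Pool.Agent.R130.AV.Log

namespace LDetAux

theorem mem_cnt {K : ℕ} {pr : ℕ → ℕ} {S : Finset ℕ} {q : ℕ × ℕ} :
    q ∈ cnt K pr S ↔ q.1 ∈ S ∧ q.2 ∈ S ∧ q.1 + 2 * K ≤ q.2 ∧ q.1 % K = q.2 % K ∧
      ∀ u ∈ S, q.1 < u → u < q.2 → pr q.1 < pr u := by
  unfold cnt
  rw [Finset.mem_filter, Finset.mem_product]
  tauto

theorem main (K : ℕ) (hK : 0 < K) (pr : ℕ → ℕ) : ∀ (N : ℕ) (S : Finset ℕ) (a e : ℕ), S.card ≤ N →
    a ∈ S → (∀ x ∈ S, a ≤ x) →
    (∀ x ∈ S, pr a ≤ pr x) → (∀ x ∈ S, ∀ y ∈ S, pr x = pr y ↔ x % K = y % K) →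
    (∀ x ∈ S, ∀ y ∈ S, x < y → x + K ≤ y) → (∀ x ∈ S, x + K < e) →
    a + (S.card + (cnt K pr S).card) * K < e := by
  intro N
  induction N with
  | zero =>
    intro S a e hN ha
    have := Finset.card_pos.mpr ⟨a, ha⟩
    omega
  | succ N ih =>
    intro S a e hN ha hmin hpr hmod hgap he
    by_cases hS : S.erase a = ∅
    · have hSa : S = {a} := by
        ext x
        rw [Finset.mem_singleton]
        constructor
        · intro hx
          by_contra hne
          have : x ∈ S.erase a := Finset.mem_erase.mpr ⟨hne, hx⟩
          rw [hS] at this
          exact absurd this (Finset.notMem_empty x)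
        · rintro rfl; exact ha
      have hc : cnt K pr S = ∅ := by
        rw [Finset.eq_empty_iff_forall_notMem]
        intro q hq
        rw [mem_cnt, hSa, Finset.mem_singleton, Finset.mem_singleton] at hq
        omega
      rw [hc, hSa, Finset.card_singleton, Finset.card_empty]
      have := he a ha
      simpa using this
    · have hne : (S.erase a).Nonempty := Finset.nonempty_iff_ne_empty.mpr hS
      obtain ⟨b0, hb0, hb0m⟩ := Finset.exists_min_image (S.erase a) pr hne
      have hB : ((S.erase a).filter (fun x => pr x = pr b0)).Nonempty :=
        ⟨b0, Finset.mem_filter.mpr ⟨hb0, rfl⟩⟩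
      obtain ⟨b, hb, hbm⟩ := Finset.exists_min_image _ (fun x : ℕ => x) hB
      rw [Finset.mem_filter, Finset.mem_erase] at hb
      obtain ⟨⟨hba, hbS⟩, hbpr⟩ := hb
      have hab : a < b := lt_of_le_of_ne (hmin b hbS) (Ne.symm hba)
      -- minimality of pr b
      have hbpr2 : ∀ x ∈ S, x ≠ a → pr b ≤ pr x := by
        intro x hx hxa
        rw [hbpr]
        exact hb0m x (Finset.mem_erase.mpr ⟨hxa, hx⟩)
      have hbfirst : ∀ x ∈ S, x ≠ a → pr x = pr b → b ≤ x := by
        intro x hx hxa hxp
        exact hbm x (Finset.mem_filter.mpr ⟨Finset.mem_erase.mpr ⟨hxa, hx⟩, by rw [hxp, hbpr]⟩)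
      set SL := S.filter (fun x => x < b) with hSL
      set SR := S.filter (fun x => b ≤ x) with hSR
      have hcardLR : SL.card + SR.card = S.card := by
        have h := Finset.card_filter_add_card_filter_not (s := S) (fun x => x < b)
        have h2 : S.filter (fun x => ¬ x < b) = SR := by
          rw [hSR]; apply Finset.filter_congr; intro x _; exact not_lt
        rw [h2] at h
        exact h
      have haL : a ∈ SL := Finset.mem_filter.mpr ⟨ha, hab⟩
      have hbR : b ∈ SR := Finset.mem_filter.mpr ⟨hbS, le_refl b⟩
      have hLpos := Finset.card_pos.mpr ⟨a, haL⟩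
      have hRpos := Finset.card_pos.mpr ⟨b, hbR⟩
      have hLS : ∀ x ∈ SL, x ∈ S := fun x hx => (Finset.mem_filter.mp hx).1
      have hRS : ∀ x ∈ SR, x ∈ S := fun x hx => (Finset.mem_filter.mp hx).1
      have hLlt : ∀ x ∈ SL, x < b := fun x hx => (Finset.mem_filter.mp hx).2
      have hRge : ∀ x ∈ SR, b ≤ x := fun x hx => (Finset.mem_filter.mp hx).2
      have ihR : b + (SR.card + (cnt K pr SR).card) * K < e := by
        apply ih SR b e (by omega) hbR hRge
        · intro x hx
          have := hRge x hx
          exact hbpr2 x (hRS x hx) (by omega)
        · intro x hx y hy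
          exact hmod x (hRS x hx) y (hRS y hy)
        · intro x hx y hy
          exact hgap x (hRS x hx) y (hRS y hy)
        · intro x hx
          exact he x (hRS x hx)
      have ihL : (∀ x ∈ SL, x + K < b) → a + (SL.card + (cnt K pr SL).card) * K < b := by
        intro hend
        apply ih SL a b (by omega) haL
        · intro x hx; exact hmin x (hLS x hx)
        · intro x hx; exact hpr x (hLS x hx)
        · intro x hx y hy
          exact hmod x (hLS x hx) y (hLS y hy)
        · intro x hx y hy
          exact hgap x (hLS x hx) y (hLS y hy)
        · exact hend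
      -- a position x in SL with x + K = b is a
      have hstrict : ∀ x ∈ SL, x + K = b → x = a := by
        intro x hx hxb
        by_contra hxa
        have h1 : x % K = b % K := by rw [← hxb, Nat.add_mod_right]
        have h2 := (hmod x (hLS x hx) b hbS).mpr h1
        have h3 := hbfirst x (hLS x hx) hxa h2
        have := hLlt x hx
        omega
      -- decomposition of the counted pairs
      have hdec : ∀ q ∈ cnt K pr S, q ∈ cnt K pr SL ∨ q ∈ cnt K pr SR ∨ q = (a, b) := by
        intro q hq
        rw [mem_cnt] at hq
        obtain ⟨h1, h2, h3, h4, h5⟩ := hq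
        by_cases c2 : q.2 < b
        · left
          rw [mem_cnt]
          refine ⟨Finset.mem_filter.mpr ⟨h1, by omega⟩, Finset.mem_filter.mpr ⟨h2, c2⟩, h3, h4, ?_⟩
          intro u hu; exact h5 u (hLS u hu)
        · by_cases c1 : b ≤ q.1
          · right; left
            rw [mem_cnt]
            refine ⟨Finset.mem_filter.mpr ⟨h1, c1⟩, Finset.mem_filter.mpr ⟨h2, by omega⟩, h3, h4, ?_⟩
            intro u hu; exact h5 u (hRS u hu)
          · right; right
            have hpe : pr q.1 = pr q.2 := (hmod q.1 h1 q.2 h2).mpr h4
            have hq2b : q.2 = b := by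
              by_contra hne2
              have hlt : pr q.1 < pr b := h5 b hbS (by omega) (by omega)
              have := hbpr2 q.2 h2 (by omega)
              omega
            have hq1a : q.1 = a := by
              by_contra hne1
              rw [hq2b] at hpe
              have := hbfirst q.1 h1 hne1 hpe
              omega
            exact Prod.ext hq1a hq2b
      by_cases hcase : (a, b) ∈ cnt K pr S
      · have hc := hcase
        rw [mem_cnt] at hc
        obtain ⟨_, _, h3, h4, _⟩ := hc
        simp only at h3 h4
        have hend : ∀ x ∈ SL, x + K < b := by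
          intro x hx
          have h6 := hgap x (hLS x hx) b hbS (hLlt x hx)
          rcases Nat.lt_or_ge (x + K) b with h7 | h7
          · exact h7
          · have h8 := hstrict x hx (by omega)
            subst h8
            omega
        have hL := ihL hend
        have hcard : (cnt K pr S).card ≤ (cnt K pr SL).card + (cnt K pr SR).card + 1 := by
          have hsub : cnt K pr S ⊆ (cnt K pr SL ∪ cnt K pr SR) ∪ {(a, b)} := by
            intro q hq
            rcases hdec q hq with h | h | h
            · exact Finset.mem_union_left _ (Finset.mem_union_left _ h)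
            · exact Finset.mem_union_left _ (Finset.mem_union_right _ h)
            · exact Finset.mem_union_right _ (Finset.mem_singleton.mpr h)
          refine (Finset.card_le_card hsub).trans ((Finset.card_union_le _ _).trans ?_)
          rw [Finset.card_singleton]
          exact Nat.add_le_add_right (Finset.card_union_le _ _) 1
        obtain ⟨d, hd⟩ : ∃ d, b = a + d * K := by
          have h9 : K ∣ b - a := (Nat.modEq_iff_dvd' hab.le).mp h4
          obtain ⟨d, hd⟩ := h9
          refine ⟨d, ?_⟩
          rw [mul_comm] at hd
          omega
        have h10 : (SL.card + (cnt K pr SL).card) * K < d * K := by omega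
        have h11 : SL.card + (cnt K pr SL).card < d := lt_of_mul_lt_mul_right h10 (Nat.zero_le K)
        have h12 : (SL.card + (cnt K pr SL).card + 1) * K ≤ d * K := Nat.mul_le_mul_right K h11
        calc a + (S.card + (cnt K pr S).card) * K
            ≤ a + ((SL.card + (cnt K pr SL).card + 1) + (SR.card + (cnt K pr SR).card)) * K := by
              apply Nat.add_le_add_left
              apply Nat.mul_le_mul_right
              omega
          _ = a + (SL.card + (cnt K pr SL).card + 1) * K + (SR.card + (cnt K pr SR).card) * K := by
              ring
          _ ≤ b + (SR.card + (cnt K pr SR).card) * K := by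
              rw [hd]; gcongr
          _ < e := ihR
      · have hcard : (cnt K pr S).card ≤ (cnt K pr SL).card + (cnt K pr SR).card := by
          have hsub : cnt K pr S ⊆ cnt K pr SL ∪ cnt K pr SR := by
            intro q hq
            rcases hdec q hq with h | h | h
            · exact Finset.mem_union_left _ h
            · exact Finset.mem_union_right _ h
            · exact absurd (h ▸ hq) hcase
          exact (Finset.card_le_card hsub).trans (Finset.card_union_le _ _)
        have hL : a + (SL.card + (cnt K pr SL).card) * K ≤ b := by
          by_cases hend : ∀ x ∈ SL, x + K < b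
          · exact (ihL hend).le
          · push Not at hend
            obtain ⟨x, hx, hxb⟩ := hend
            have h6 := hgap x (hLS x hx) b hbS (hLlt x hx)
            have hxb2 : x + K = b := by omega
            have hxa := hstrict x hx hxb2
            subst hxa
            have hSL1 : SL = {x} := by
              ext y
              rw [Finset.mem_singleton]
              constructor
              · intro hy
                by_contra hyx
                have h7 := hmin y (hLS y hy)
                have h8 := hgap x ha y (hLS y hy) (by omega)
                have h9 := hLlt y hy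
                omega
              · rintro rfl; exact haL
            have hc0 : cnt K pr SL = ∅ := by
              rw [Finset.eq_empty_iff_forall_notMem]
              intro q hq
              rw [mem_cnt, hSL1, Finset.mem_singleton, Finset.mem_singleton] at hq
              omega
            rw [hc0, hSL1, Finset.card_singleton, Finset.card_empty]
            omega
        calc a + (S.card + (cnt K pr S).card) * K
            ≤ a + ((SL.card + (cnt K pr SL).card) + (SR.card + (cnt K pr SR).card)) * K := by
              apply Nat.add_le_add_left
              apply Nat.mul_le_mul_right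
              omega
          _ = a + (SL.card + (cnt K pr SL).card) * K + (SR.card + (cnt K pr SR).card) * K := by
              ring
          _ ≤ b + (SR.card + (cnt K pr SR).card) * K := by
              gcongr
          _ < e := ihR

end LDetAux

theorem det : StmDet := by
  intro K pr S a e hK ha h1 h2 h3 h4 h5
  exact LDetAux.main K hK pr S.card S a e le_rfl ha h1 h2 h3 h4 h5

end Pool.Agent.R130.AV.Log
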