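import Pool.Agent.R130.AV.LogDefs

/-!
# LB-DETN (helper310): doubling of coordinates
-/

set_option autoImplicit false

open MeasureTheory Finset

namespace Pool.Agent.R130.AV.Log

/-- L2 -/
theorem detN : StmDet → StmDetN := by
  classical
  intro hdet k n O pr hk hinj hO hgap
  set f : ℕ → ℕ := fun x => 2 * x + 2 * k + 1 with hf
  set S : Finset ℕ := insert 0 (O.image f) with hS
  set pr' : ℕ → ℕ := fun y => if y % 2 = 0 then 0 else pr (((y - 1) / 2) % k) + 1 with hpr'
  have hf0 : ∀ x, f x ≠ 0 := by intro x; simp only [hf]; omega
  have hfinj : Function.Injective f := by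
    intro x y h
    simp only [hf] at h
    omega
  have hmod : ∀ x, f x % (2 * k) = 2 * (x % k) + 1 := by
    intro x
    have h1 : x % k < k := Nat.mod_lt _ hk
    have h2 : k * (x / k) + x % k = x := Nat.div_add_mod x k
    have h3 : f x = (2 * (x % k) + 1) + (2 * k) * (x / k + 1) := by
      simp only [hf]
      have h4 : (2 * k) * (x / k + 1) = 2 * (k * (x / k)) + 2 * k := by ring
      rw [h4]
      omega
    rw [h3, Nat.add_mul_mod_self_left]
    exact Nat.mod_eq_of_lt (by omega)
  have hprf : ∀ x, pr' (f x) = pr (x % k) + 1 := by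
    intro x
    have h1 : f x % 2 ≠ 0 := by simp only [hf]; omega
    have h2 : (f x - 1) / 2 = x + k := by simp only [hf]; omega
    simp only [hpr']
    rw [if_neg h1, h2, Nat.add_mod_right]
  have hpr0 : pr' 0 = 0 := by simp [hpr']
  have hmem : ∀ x ∈ S, x = 0 ∨ ∃ y ∈ O, x = f y := by
    intro x hx
    rw [hS, mem_insert, mem_image] at hx
    rcases hx with h | ⟨y, hy, h⟩
    · exact Or.inl h
    · exact Or.inr ⟨y, hy, h.symm⟩
  have key := hdet (2 * k) pr' S 0 (2 * (n * k) + 4 * k) (by omega) (mem_insert_self _ _)
    (fun x _ => Nat.zero_le x) (fun x _ => by rw [hpr0]; exact Nat.zero_le _) ?_ ?_ ?_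
  · have hcard : S.card = O.card + 1 := by
      rw [hS, card_insert_of_notMem, card_image_of_injective _ hfinj]
      rw [mem_image]
      rintro ⟨y, _, h⟩
      exact hf0 y h
    have hcnt : (retP k pr O).card ≤ (cnt (2 * k) pr' S).card := by
      apply card_le_card_of_injOn (fun q => (f q.1, f q.2))
      · intro q hq
        have hq' := Finset.mem_coe.1 hq
        rw [retP, mem_filter, ret, mem_filter, mem_product] at hq'
        obtain ⟨⟨⟨q1, q2⟩, q3, q4, _⟩, q6⟩ := hq'
        apply Finset.mem_coe.2
        rw [cnt, mem_filter, mem_product]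
        refine ⟨⟨mem_insert_of_mem (mem_image_of_mem _ q1),
          mem_insert_of_mem (mem_image_of_mem _ q2)⟩, ?_, ?_, ?_⟩
        · simp only [hf]; omega
        · simp only [hmod, q4]
        · intro u hu hu1 hu2
          rcases hmem u hu with h | ⟨y, hy, h⟩
          · rw [h] at hu1
            exact absurd hu1 (Nat.not_lt_zero _)
          · rw [h] at hu1 hu2 ⊢
            simp only [hf] at hu1 hu2
            have := q6 y hy (by omega) (by omega)
            show pr' (f q.1) < pr' (f y)
            rw [hprf, hprf]
            omega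
      · intro q _ q' _ h
        have h1 := congrArg Prod.fst h
        have h2 := congrArg Prod.snd h
        exact Prod.ext (hfinj h1) (hfinj h2)
    rw [hcard, zero_add] at key
    have h5 : (O.card + 1 + (cnt (2 * k) pr' S).card) * (2 * k) < (n + 2) * (2 * k) := by
      have : (n + 2) * (2 * k) = 2 * (n * k) + 4 * k := by ring
      rw [this]; exact key
    have h6 := lt_of_mul_lt_mul_right h5 (Nat.zero_le _)
    omega
  · intro x hx y hy
    rcases hmem x hx with h | ⟨x', hx', h⟩
    · rcases hmem y hy with h' | ⟨y', hy', h'⟩
      · rw [h, h']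
        simp
      · rw [h, h', hpr0, hprf, hmod, Nat.zero_mod]
        constructor
        · intro h1; omega
        · intro h1; omega
    · rcases hmem y hy with h' | ⟨y', hy', h'⟩
      · rw [h, h', hpr0, hprf, hmod, Nat.zero_mod]
        constructor
        · intro h1; omega
        · intro h1; omega
      · rw [h, h', hprf, hprf, hmod, hmod]
        constructor
        · intro h1
          have h2 := hinj _ (Nat.mod_lt x' hk) _ (Nat.mod_lt y' hk) (by omega)
          rw [h2]
        · intro h1
          have h2 : x' % k = y' % k := by omega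
          rw [h2]
  · intro x hx y hy hxy
    rcases hmem x hx with h | ⟨x', hx', h⟩
    · rcases hmem y hy with h' | ⟨y', hy', h'⟩
      · omega
      · rw [h, h']
        simp only [hf]
        omega
    · rcases hmem y hy with h' | ⟨y', hy', h'⟩
      · omega
      · rw [h, h'] at hxy ⊢
        simp only [hf] at hxy ⊢
        have := hgap x' hx' y' hy' (by omega)
        omega
  · intro x hx
    rcases hmem x hx with h | ⟨x', hx', h⟩
    · rw [h]; omega
    · rw [h]
      simp only [hf]
      have := hO x' hx'
      omega

end Pool.Agent.R130.AV.Log
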