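import Pool.Agent.R130.AV.LogDefs
import Pool.Agent.R130.AV.Fin

/-!
# The logarithmic upper bound: assembly
-/

set_option autoImplicit false

open MeasureTheory Finset Filter Topology

namespace Pool.Agent.R130.AV.Log

theorem trivBound (hprob : StmProb) (k : ℕ) (p : ℝ) (hk : 1 ≤ k) (h : Coupling k p) :
    (k : ℝ) * p ≤ 1 := by
  have := hprob k 1 p hk h
  simpa using this

theorem bound (hprob : StmProb) (hana : StmAna) (k : ℕ) (p : ℝ) (hk : 1 ≤ k) (hp : 0 < p)
    (h : Coupling k p) : (k : ℝ) * p * (1 + p * Real.log (1 / p)) ≤ 1 := by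
  have h1 := trivBound hprob k p hk h
  have hk' : (1 : ℝ) ≤ k := by exact_mod_cast hk
  have hp1 : p ≤ 1 := by nlinarith
  rcases lt_or_eq_of_le hp1 with hlt | heq
  · exact hana k p hp hlt (fun n => hprob k n p hk h)
  · subst heq
    simpa using h1

theorem cont (k : ℕ) : Continuous (fun p : ℝ => (k : ℝ) * p * (1 + p * Real.log (1 / p))) := by
  have h : (fun p : ℝ => (k : ℝ) * p * (1 + p * Real.log (1 / p))) =
      fun p : ℝ => (k : ℝ) * p * (1 - p * Real.log p) := by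
    funext p
    rw [one_div, Real.log_inv]
    ring
  rw [h]
  exact (continuous_const.mul continuous_id).mul (continuous_const.sub Real.continuous_mul_log)

theorem pk_bound (hprob : StmProb) (hana : StmAna) (k : ℕ) (hk : 1 ≤ k) :
    0 ≤ pk k ∧ pk k ≤ 1 ∧ (k : ℝ) * pk k * (1 + pk k * Real.log (1 / pk k)) ≤ 1 := by
  by_cases hne : {p : ℝ | 0 ≤ p ∧ p ≤ 1 ∧ Coupling k p}.Nonempty
  · have hcl : IsClosed {p : ℝ | 0 ≤ p ∧ p ≤ 1 ∧
        (k : ℝ) * p * (1 + p * Real.log (1 / p)) ≤ 1} := by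
      have e : {p : ℝ | 0 ≤ p ∧ p ≤ 1 ∧ (k : ℝ) * p * (1 + p * Real.log (1 / p)) ≤ 1} =
          {p : ℝ | 0 ≤ p} ∩ ({p : ℝ | p ≤ 1} ∩
            {p : ℝ | (k : ℝ) * p * (1 + p * Real.log (1 / p)) ≤ 1}) := by
        ext p; simp
      rw [e]
      exact (isClosed_le continuous_const continuous_id).inter
        ((isClosed_le continuous_id continuous_const).inter (isClosed_le (cont k) continuous_const))
    have hb : BddAbove {p : ℝ | 0 ≤ p ∧ p ≤ 1 ∧ Coupling k p} := ⟨1, fun p hp => hp.2.1⟩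
    have hm := csSup_mem_closure hne hb
    have hsub : {p : ℝ | 0 ≤ p ∧ p ≤ 1 ∧ Coupling k p} ⊆ {p : ℝ | 0 ≤ p ∧ p ≤ 1 ∧
        (k : ℝ) * p * (1 + p * Real.log (1 / p)) ≤ 1} := by
      intro p hp
      refine ⟨hp.1, hp.2.1, ?_⟩
      rcases lt_or_eq_of_le hp.1 with h0 | h0
      · exact bound hprob hana k p hk h0 hp.2.2
      · rw [← h0]; simp
    exact closure_minimal hsub hcl hm
  · have h0 : pk k = 0 := by
      unfold pk
      rw [Set.not_nonempty_iff_eq_empty.mp hne]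
      exact Real.sSup_empty
    rw [h0]
    norm_num

theorem asym (hprob : StmProb) (hana : StmAna) (ε : ℝ) (hε : 0 < ε) :
    ∀ᶠ k : ℕ in atTop, (k : ℝ) + (1 - ε) * Real.log k ≤ 1 / pk k := by
  have h1 : Tendsto (fun k : ℕ => (k : ℝ) * pk k) atTop (𝓝 1) := asymptotics
  have h2 : ∀ᶠ k : ℕ in atTop, 1 - ε < (k : ℝ) * pk k :=
    h1.eventually (lt_mem_nhds (by linarith))
  have h3 : ∀ᶠ k : ℕ in atTop, 0 < (k : ℝ) * pk k :=
    h1.eventually (lt_mem_nhds (by norm_num))
  filter_upwards [h2, h3, eventually_ge_atTop 1] with k hk2 hk3 hk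
  obtain ⟨h0, hle, hb⟩ := pk_bound hprob hana k hk
  have hk' : (1 : ℝ) ≤ k := by exact_mod_cast hk
  have hpos : 0 < pk k := by
    rcases lt_or_eq_of_le h0 with h | h
    · exact h
    · rw [← h] at hk3; simp at hk3
  have hlog0 : 0 ≤ Real.log (1 / pk k) := by
    apply Real.log_nonneg
    rw [le_div_iff₀ hpos]
    linarith
  have hkp : (k : ℝ) * pk k ≤ 1 := by
    have : 0 ≤ (k : ℝ) * pk k * (pk k * Real.log (1 / pk k)) := by positivity
    nlinarith
  have hlog : Real.log k ≤ Real.log (1 / pk k) := by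
    apply Real.log_le_log (by linarith)
    rw [le_div_iff₀ hpos]
    exact hkp
  have hlogk : 0 ≤ Real.log k := Real.log_nonneg hk'
  have h4 : (1 - ε) * Real.log k ≤ (k : ℝ) * pk k * Real.log (1 / pk k) := by
    calc (1 - ε) * Real.log k ≤ (k : ℝ) * pk k * Real.log k :=
          mul_le_mul_of_nonneg_right hk2.le hlogk
      _ ≤ _ := mul_le_mul_of_nonneg_left hlog hk3.le
  have h5 : (k : ℝ) + (k : ℝ) * pk k * Real.log (1 / pk k) ≤ 1 / pk k := by
    rw [le_div_iff₀ hpos]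
    calc ((k : ℝ) + (k : ℝ) * pk k * Real.log (1 / pk k)) * pk k =
        (k : ℝ) * pk k * (1 + pk k * Real.log (1 / pk k)) := by ring
      _ ≤ 1 := hb
  linarith

end Pool.Agent.R130.AV.Log
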