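import Pool.Agent.R130.AV.LogDefs

/-!
# The probability of the pattern 1 0 ... 0 1 for an i.i.d. Bernoulli sequence
-/

set_option autoImplicit false

open MeasureTheory Finset

namespace Pool.Agent.R130.AV.Log

/-- the shifted law -/
theorem pat_shift {Ω : Type} [MeasurableSpace Ω] (μ : Measure Ω) [IsProbabilityMeasure μ] (p : ℝ)
    (t : ℕ) : ∀ (X : ℕ → Ω → Bool), (∀ t, Measurable (X t)) →
    (∀ (n : ℕ) (y : Fin n → Bool),
      μ.real {ω | ∀ i : Fin n, X i ω = y i} = ∏ i, (if y i = true then p else 1 - p)) →
    ∀ (n : ℕ) (y : Fin n → Bool),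
      μ.real {ω | ∀ i : Fin n, X (t + i) ω = y i} = ∏ i, (if y i = true then p else 1 - p) := by
  induction t with
  | zero =>
    intro X _ h n y
    simpa using h n y
  | succ t ih =>
    intro X hX h n y
    have key := ih (fun s => X (s + 1)) (fun s => hX (s + 1)) ?_ n y
    · have e : ∀ i : Fin n, t + 1 + (i : ℕ) = t + i + 1 := fun i => by ring
      simp only [e]
      exact key
    · intro m z
      have hm : MeasurableSet {ω | X 0 ω = true} := (hX 0) (measurableSet_singleton true)
      have h1 := h (m + 1) (Fin.cons true z)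
      have h2 := h (m + 1) (Fin.cons false z)
      rw [Fin.prod_univ_succ] at h1 h2
      simp only [Fin.cons_zero, Fin.cons_succ] at h1 h2
      have s1 : {ω | ∀ i : Fin m, X (i + 1) ω = z i} ∩ {ω | X 0 ω = true} =
          {ω | ∀ i : Fin (m + 1), X i ω = (Fin.cons true z : Fin (m + 1) → Bool) i} := by
        ext ω
        simp [Fin.forall_fin_succ, and_comm]
      have s2 : {ω | ∀ i : Fin m, X (i + 1) ω = z i} \ {ω | X 0 ω = true} =
          {ω | ∀ i : Fin (m + 1), X i ω = (Fin.cons false z : Fin (m + 1) → Bool) i} := by
        ext ω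
        simp [Fin.forall_fin_succ, and_comm]
      have h3 := measureReal_inter_add_sdiff (μ := μ) (s := {ω | ∀ i : Fin m, X (i + 1) ω = z i}) hm
      rw [s1, s2, h1, h2] at h3
      simp only [if_true, Bool.false_eq_true, if_false] at h3
      show μ.real {ω | ∀ i : Fin m, X (i + 1) ω = z i} = _
      rw [← h3]
      ring

theorem pat : StmPat := by
  intro Ω _ μ _ X p hX h
  constructor
  · intro t
    have h1 := pat_shift μ p t X hX h 1 (fun _ => true)
    simpa using h1
  · intro t d hd
    obtain ⟨e, rfl⟩ : ∃ e, d = e + 1 := ⟨d - 1, by omega⟩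
    have h1 := pat_shift μ p t X hX h (e + 2)
      (fun i => decide ((i : ℕ) = 0 ∨ (i : ℕ) = e + 1))
    have s : {ω | ∀ i : Fin (e + 2), X (t + i) ω = decide ((i : ℕ) = 0 ∨ (i : ℕ) = e + 1)} =
        {ω | X t ω = true ∧ (∀ i < t + (e + 1), t < i → X i ω = false) ∧
          X (t + (e + 1)) ω = true} := by
      ext ω
      constructor
      · intro hω
        refine ⟨?_, ?_, ?_⟩
        · have := hω ⟨0, by omega⟩
          simpa using this
        · intro i hi hti
          have h2 := hω ⟨i - t, by omega⟩
          have h3 : t + (i - t) = i := by omega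
          simp only [h3] at h2
          rw [h2]
          have h4 : ¬ (i - t = 0 ∨ i - t = e + 1) := by omega
          exact decide_eq_false h4
        · have := hω ⟨e + 1, by omega⟩
          simpa using this
      · rintro ⟨h2, h3, h4⟩ ⟨i, hi⟩
        show X (t + i) ω = decide (i = 0 ∨ i = e + 1)
        rcases Nat.eq_zero_or_pos i with rfl | hpos
        · simpa using h2
        · rcases Nat.lt_or_ge i (e + 1) with hlt | hge
          · rw [h3 (t + i) (by omega) (by omega)]
            have h5 : ¬ (i = 0 ∨ i = e + 1) := by omega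
            exact (decide_eq_false h5).symm
          · have h6 : i = e + 1 := by omega
            subst h6
            simpa using h4
    rw [s] at h1
    rw [h1, Fin.prod_univ_succ, Fin.prod_univ_castSucc]
    have hmid : ∀ i : Fin e,
        (if decide (((i.castSucc.succ : Fin (e + 2)) : ℕ) = 0 ∨
          ((i.castSucc.succ : Fin (e + 2)) : ℕ) = e + 1) = true then p else 1 - p) = 1 - p := by
      intro i
      have h5 : ¬ (((i.castSucc.succ : Fin (e + 2)) : ℕ) = 0 ∨
          ((i.castSucc.succ : Fin (e + 2)) : ℕ) = e + 1) := by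
        have := i.2
        simp only [Fin.val_succ, Fin.val_castSucc]
        omega
      rw [decide_eq_false h5]
      simp
    rw [Finset.prod_congr rfl (fun i _ => hmid i)]
    simp
    ring

end Pool.Agent.R130.AV.Log
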