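import Pool.Agent.R130.AV.LogDefs

/-!
# Project LB, piece L3: permutations with the minimum of a set at a given place
-/

set_option autoImplicit false

open Finset

namespace Pool.Agent.R130.AV.Log

/-- the permutations which are smallest at `j` among `T` -/
def AA {k : ℕ} (T : Finset (Fin k)) (j : Fin k) : Finset (Equiv.Perm (Fin k)) :=
  univ.filter (fun σ : Equiv.Perm (Fin k) => ∀ i ∈ T, i ≠ j → σ j < σ i)

theorem AA_card {k : ℕ} (T : Finset (Fin k)) {i j : Fin k} (hi : i ∈ T) (hj : j ∈ T) :
    (AA T i).card = (AA T j).card := by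
  have key : ∀ i j : Fin k, i ∈ T → j ∈ T → ∀ σ ∈ AA T i, σ * Equiv.swap i j ∈ AA T j := by
    intro i j hi hj σ hσ
    rw [AA, mem_filter] at hσ ⊢
    refine ⟨mem_univ _, fun l hl hlj => ?_⟩
    rw [Equiv.Perm.mul_apply, Equiv.Perm.mul_apply, Equiv.swap_apply_right]
    by_cases h : l = i
    · subst h
      rw [Equiv.swap_apply_left]
      exact hσ.2 j hj (Ne.symm hlj)
    · rw [Equiv.swap_apply_of_ne_of_ne h hlj]
      exact hσ.2 l hl h
  refine Finset.card_bij (fun σ _ => σ * Equiv.swap i j) (fun σ hσ => key i j hi hj σ hσ) ?_ ?_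
  · intro σ _ τ _ h
    exact mul_right_cancel h
  · intro σ hσ
    refine ⟨σ * Equiv.swap i j, ?_, ?_⟩
    · rw [Equiv.swap_comm]
      exact key j i hj hi σ hσ
    · show σ * Equiv.swap i j * Equiv.swap i j = σ
      rw [mul_assoc, Equiv.swap_mul_self, mul_one]

/-- L3 -/
theorem perm : StmPerm := by
  intro k T j hj
  have h1 : ∑ i ∈ T, (AA T i).card = k.factorial := by
    rw [← Finset.card_biUnion]
    · have h2 : T.biUnion (AA T) = univ := by
        ext σ
        simp only [mem_biUnion, mem_univ, iff_true]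
        obtain ⟨i, hi, h⟩ := T.exists_min_image σ ⟨j, hj⟩
        refine ⟨i, hi, ?_⟩
        rw [AA, mem_filter]
        exact ⟨mem_univ _, fun l hl hne =>
          lt_of_le_of_ne (h l hl) (fun he => hne (σ.injective he.symm))⟩
      rw [h2, card_univ, Fintype.card_perm, Fintype.card_fin]
    · intro a ha b hb hab
      refine disjoint_left.2 fun σ h2 h3 => ?_
      rw [AA, mem_filter] at h2 h3
      exact lt_asymm (h2.2 b hb (Ne.symm hab)) (h3.2 a ha hab)
  rw [Finset.sum_const_nat (fun i hi => AA_card T hi hj)] at h1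
  rw [mul_comm]
  exact h1

end Pool.Agent.R130.AV.Log
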