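import Pool.Agent.R130.AV.LogDefs

/-!
# L7: integration of the deterministic inequality
-/

set_option autoImplicit false

open MeasureTheory Finset

namespace Pool.Agent.R130.AV.Log

theorem prob : StmX → StmPat → StmProb := by
  rintro hX hPat k n p hk ⟨Ω, mΩ, μ, X, hμ, hmeas, hlaw, hav⟩
  have hpat := fun j => hPat Ω mΩ μ hμ (X j) p (hmeas j) (hlaw j)
  set A : Fin k → ℕ → Set Ω := fun j t => {ω | X j t ω = true} with hA
  set B : Fin k → ℕ → ℕ → Set Ω := fun j t d => {ω | X j t ω = true ∧
    (∀ i < t + d, t < i → X j i ω = false) ∧ X j (t + d) ω = true} with hB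
  have mA : ∀ j t, MeasurableSet (A j t) := fun j t => (hmeas j t) (measurableSet_singleton true)
  have mB : ∀ j t d, MeasurableSet (B j t d) := by
    intro j t d
    have h1 : MeasurableSet {ω | ∀ i < t + d, t < i → X j i ω = false} := by
      have : {ω | ∀ i < t + d, t < i → X j i ω = false} =
          ⋂ i, ⋂ (_ : i < t + d), ⋂ (_ : t < i), {ω | X j i ω = false} := by
        ext ω; simp
      rw [this]
      exact MeasurableSet.iInter fun i => MeasurableSet.iInter fun _ =>
        MeasurableSet.iInter fun _ => (hmeas j i) (measurableSet_singleton false)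
    exact (mA j t).inter (h1.inter (mA j (t + d)))
  have hf : ∀ᵐ ω ∂μ, (∑ j : Fin k, ∑ t ∈ range n, (A j t).indicator (fun _ => (1 : ℝ)) ω) +
      (∑ j : Fin k, ∑ d ∈ Ico 2 n, ∑ t ∈ range (n - d),
        (B j t d).indicator (fun _ => (1 : ℝ) / ((d : ℝ) - 1)) ω) ≤ (n : ℝ) := by
    filter_upwards [hav] with ω hω
    have h1 := hX k n (fun j t => X j t ω) hk hω
    refine le_trans (le_of_eq ?_) h1
    congr 1
    · refine Finset.sum_congr rfl fun j _ => Finset.sum_congr rfl fun t _ => ?_
      by_cases h : X j t ω = true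
      · rw [Set.indicator_of_mem (show ω ∈ A j t from h), if_pos h]
      · rw [Set.indicator_of_notMem (show ω ∉ A j t from h), if_neg h]
    · refine Finset.sum_congr rfl fun j _ => Finset.sum_congr rfl fun d _ =>
        Finset.sum_congr rfl fun t _ => ?_
      by_cases h : X j t ω = true ∧ (∀ i < t + d, t < i → X j i ω = false) ∧
        X j (t + d) ω = true
      · rw [Set.indicator_of_mem (show ω ∈ B j t d from h), if_pos h]
      · rw [Set.indicator_of_notMem (show ω ∉ B j t d from h), if_neg h]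
  have iA : ∀ j t, Integrable ((A j t).indicator (fun _ => (1 : ℝ))) μ := fun j t =>
    (integrable_const _).indicator (mA j t)
  have iB : ∀ j t d, Integrable ((B j t d).indicator (fun _ => (1 : ℝ) / ((d : ℝ) - 1))) μ :=
    fun j t d => (integrable_const _).indicator (mB j t d)
  have i1 : Integrable (fun ω => ∑ j : Fin k, ∑ t ∈ range n,
      (A j t).indicator (fun _ => (1 : ℝ)) ω) μ :=
    integrable_finset_sum _ fun j _ => integrable_finset_sum _ fun t _ => iA j t
  have i2 : Integrable (fun ω => ∑ j : Fin k, ∑ d ∈ Ico 2 n, ∑ t ∈ range (n - d),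
        (B j t d).indicator (fun _ => (1 : ℝ) / ((d : ℝ) - 1)) ω) μ :=
    integrable_finset_sum _ fun j _ => integrable_finset_sum _ fun d _ =>
      integrable_finset_sum _ fun t _ => iB j t d
  have hle := integral_mono_ae (i1.add i2) (integrable_const (n : ℝ)) hf
  have e0 : ∫ _, (n : ℝ) ∂μ = n := by simp
  have e1 : ∫ ω, (∑ j : Fin k, ∑ t ∈ range n, (A j t).indicator (fun _ => (1 : ℝ)) ω) ∂μ =
      k * (n * p) := by
    rw [integral_finset_sum _ fun j _ => integrable_finset_sum _ fun t _ => iA j t]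
    have : ∀ j : Fin k, ∫ ω, (∑ t ∈ range n, (A j t).indicator (fun _ => (1 : ℝ)) ω) ∂μ =
        n * p := by
      intro j
      rw [integral_finset_sum _ fun t _ => iA j t]
      have h2 : ∀ t ∈ range n, ∫ ω, (A j t).indicator (fun _ => (1 : ℝ)) ω ∂μ = p := by
        intro t _
        rw [integral_indicator_const _ (mA j t), (hpat j).1 t]
        simp
      rw [Finset.sum_congr rfl h2]
      simp
    simp only [this]
    simp
  have e2 : ∫ ω, (∑ j : Fin k, ∑ d ∈ Ico 2 n, ∑ t ∈ range (n - d),
        (B j t d).indicator (fun _ => (1 : ℝ) / ((d : ℝ) - 1)) ω) ∂μ =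
      k * ∑ d ∈ Ico 2 n, ((n : ℝ) - d) * (p ^ 2 * (1 - p) ^ (d - 1)) / ((d : ℝ) - 1) := by
    rw [integral_finset_sum _ fun j _ => integrable_finset_sum _ fun d _ =>
      integrable_finset_sum _ fun t _ => iB j t d]
    have : ∀ j : Fin k, ∫ ω, (∑ d ∈ Ico 2 n, ∑ t ∈ range (n - d),
        (B j t d).indicator (fun _ => (1 : ℝ) / ((d : ℝ) - 1)) ω) ∂μ =
        ∑ d ∈ Ico 2 n, ((n : ℝ) - d) * (p ^ 2 * (1 - p) ^ (d - 1)) / ((d : ℝ) - 1) := by
      intro j
      rw [integral_finset_sum _ fun d _ => integrable_finset_sum _ fun t _ => iB j t d]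
      refine Finset.sum_congr rfl fun d hd => ?_
      rw [Finset.mem_Ico] at hd
      rw [integral_finset_sum _ fun t _ => iB j t d]
      have h2 : ∀ t ∈ range (n - d),
          ∫ ω, (B j t d).indicator (fun _ => (1 : ℝ) / ((d : ℝ) - 1)) ω ∂μ =
            (p ^ 2 * (1 - p) ^ (d - 1)) * (1 / ((d : ℝ) - 1)) := by
        intro t _
        rw [integral_indicator_const _ (mB j t d), (hpat j).2 t d (by omega), smul_eq_mul]
      rw [Finset.sum_congr rfl h2, Finset.sum_const, card_range, nsmul_eq_mul,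
        Nat.cast_sub hd.2.le]
      ring
    simp only [this]
    simp
  have e3 : ∫ ω, ((∑ j : Fin k, ∑ t ∈ range n, (A j t).indicator (fun _ => (1 : ℝ)) ω) +
      (∑ j : Fin k, ∑ d ∈ Ico 2 n, ∑ t ∈ range (n - d),
        (B j t d).indicator (fun _ => (1 : ℝ) / ((d : ℝ) - 1)) ω)) ∂μ ≤ n := by
    rw [← e0]; exact hle
  rw [integral_add i1 i2, e1, e2] at e3
  rw [mul_add]
  exact e3

end Pool.Agent.R130.AV.Log
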