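import Pool.Agent.R130.AV.LogDefs

/-! LB-X (helper261): re-indexing turns as (walker, round). -/

set_option autoImplicit false

open MeasureTheory Finset

namespace Pool.Agent.R130.AV.Log

namespace LXaux

theorem md {k : ℕ} (t : ℕ) (j : Fin k) : (t * k + j) % k = j := by
  rw [Nat.add_comm, Nat.add_mul_mod_self_right, Nat.mod_eq_of_lt j.2]

theorem dv {k : ℕ} (hk : 0 < k) (t : ℕ) (j : Fin k) : (t * k + j) / k = t := by
  rw [Nat.add_comm, Nat.add_mul_div_right _ _ hk, Nat.div_eq_of_lt j.2, Nat.zero_add]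

end LXaux

open LXaux

theorem detX : StmAvg → StmX := by
  classical
  intro hA k n x hk hx
  let w : ℕ → Fin k := fun m => ⟨m % k, Nat.mod_lt _ hk⟩
  let O : Finset ℕ := (range (n * k)).filter (fun m => x (w m) (m / k) = true)
  have hw : ∀ (t : ℕ) (j : Fin k), w (t * k + j) = j := fun t j => Fin.ext (md t j)
  have hOm : ∀ (t : ℕ) (j : Fin k), t < n → x j t = true → t * k + j ∈ O := by
    intro t j ht hxt
    refine mem_filter.2 ⟨mem_range.2 ?_, ?_⟩
    · have h1 : (t + 1) * k ≤ n * k := Nat.mul_le_mul_right k ht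
      have h2 := j.2
      have h3 : (t + 1) * k = t * k + k := by ring
      omega
    · rw [hw, dv hk]
      exact hxt
  have hdec : ∀ m : ℕ, m = (m / k) * k + (w m : ℕ) := fun m => (Nat.div_add_mod' m k).symm
  have h0 := hA k n O hk (fun m hm => mem_range.1 (mem_filter.1 hm).1) (by
    intro m hm m' hm' hlt
    by_contra hc
    have h1 := (mem_filter.1 hm).2
    have h2 := (mem_filter.1 hm').2
    refine hx (m / k) (m' / k) (w m) (w m') ?_ ?_ ⟨h1, h2⟩
    · rw [← hdec m, ← hdec m']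
      exact hlt
    · rw [← hdec m, ← hdec m']
      omega)
  -- first sum
  have hfirst : (∑ j : Fin k, ∑ t ∈ range n, (if x j t = true then (1 : ℝ) else 0)) ≤
      (O.card : ℝ) := by
    rw [← sum_product']
    rw [← sum_filter, sum_const, nsmul_eq_mul, mul_one]
    have h1 : ((((univ : Finset (Fin k)) ×ˢ range n).filter
        (fun q : Fin k × ℕ => x q.1 q.2 = true)).card) ≤ O.card := by
      refine card_le_card_of_injOn (fun q : Fin k × ℕ => q.2 * k + q.1) ?_ ?_
      · intro q hq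
        have h2 := mem_filter.1 (mem_coe.1 hq)
        exact mem_coe.2 (hOm q.2 q.1 (mem_range.1 (mem_product.1 h2.1).2) h2.2)
      · intro q _ q' _ h
        have h' : q.2 * k + q.1 = q'.2 * k + q'.1 := h
        have e1 := congrArg (fun m => m / k) h'
        have e2 := congrArg (fun m => m % k) h'
        simp only [dv hk, md] at e1 e2
        exact Prod.ext (Fin.ext e2) e1
    exact_mod_cast h1
  -- second sum
  let Pt : Fin k × (ℕ × ℕ) → Prop := fun q => q.2.2 < n - q.2.1 ∧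
    (x q.1 q.2.2 = true ∧ (∀ i < q.2.2 + q.2.1, q.2.2 < i → x q.1 i = false) ∧
      x q.1 (q.2.2 + q.2.1) = true)
  let Ts : Finset (Fin k × (ℕ × ℕ)) :=
    ((univ : Finset (Fin k)) ×ˢ (Ico 2 n ×ˢ range n)).filter Pt
  let φ : Fin k × (ℕ × ℕ) → ℕ × ℕ := fun q =>
    (q.2.2 * k + q.1, (q.2.2 + q.2.1) * k + q.1)
  let F : ℕ × ℕ → ℝ := fun q => 1 / ((((q.2 - q.1) / k : ℕ) : ℝ) - 1)
  have hTs : ∀ q ∈ Ts, 2 ≤ q.2.1 ∧ q.2.2 + q.2.1 < n ∧ Pt q := by
    intro q hq
    have h1 := mem_filter.1 hq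
    have h2 := mem_product.1 h1.1
    have h3 := mem_product.1 h2.2
    have h4 := mem_Ico.1 h3.1
    have h5 := h1.2.1
    exact ⟨h4.1, by omega, h1.2⟩
  have hφd : ∀ q : Fin k × (ℕ × ℕ), (φ q).2 - (φ q).1 = q.2.1 * k := by
    intro q
    show (q.2.2 + q.2.1) * k + q.1 - (q.2.2 * k + q.1) = q.2.1 * k
    have : (q.2.2 + q.2.1) * k = q.2.2 * k + q.2.1 * k := by ring
    omega
  have hF : ∀ q : Fin k × (ℕ × ℕ), F (φ q) = 1 / ((q.2.1 : ℝ) - 1) := by
    intro q
    show 1 / (((((φ q).2 - (φ q).1) / k : ℕ) : ℝ) - 1) = _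
    rw [hφd, Nat.mul_div_cancel _ hk]
  have hinj : Set.InjOn φ (Ts : Set (Fin k × (ℕ × ℕ))) := by
    intro q _ q' _ h
    have h1 : q.2.2 * k + q.1 = q'.2.2 * k + q'.1 := congrArg Prod.fst h
    have h2 : (φ q).2 - (φ q).1 = (φ q').2 - (φ q').1 := by rw [h]
    rw [hφd, hφd] at h2
    have e0 := Nat.eq_of_mul_eq_mul_right hk h2
    have e1 := congrArg (fun m => m / k) h1
    have e2 := congrArg (fun m => m % k) h1
    simp only [dv hk, md] at e1 e2
    exact Prod.ext (Fin.ext e2) (Prod.ext e0 e1)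
  have hsub : Ts.image φ ⊆ ret k O := by
    intro r hr
    obtain ⟨q, hq, rfl⟩ := mem_image.1 hr
    obtain ⟨hd, htn, hlt, hx1, hx2, hx3⟩ := hTs q hq
    refine mem_filter.2 ⟨mem_product.2 ⟨hOm _ _ (by omega) hx1, hOm _ _ htn hx3⟩, ?_, ?_, ?_⟩
    · show q.2.2 * k + q.1 + 2 * k ≤ (q.2.2 + q.2.1) * k + q.1
      have h1 : 2 * k ≤ q.2.1 * k := Nat.mul_le_mul_right k hd
      have h2 : (q.2.2 + q.2.1) * k = q.2.2 * k + q.2.1 * k := by ring
      omega
    · show (q.2.2 * k + q.1) % k = ((q.2.2 + q.2.1) * k + q.1) % k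
      rw [md, md]
    · intro u hu hu1 hu2 hu3
      have hu1' : q.2.2 * k + q.1 < u := hu1
      have hu2' : u < (q.2.2 + q.2.1) * k + q.1 := hu2
      have hu3' : u % k = (q.2.2 * k + q.1) % k := hu3
      rw [md] at hu3'
      have hwu : w u = q.1 := Fin.ext hu3'
      have hxu := (mem_filter.1 hu).2
      rw [hwu] at hxu
      have hu4 := hdec u
      rw [hwu] at hu4
      have h5 : q.2.2 < u / k := by
        by_contra hc
        have : (u / k) * k ≤ q.2.2 * k := Nat.mul_le_mul_right k (by omega)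
        omega
      have h6 : u / k < q.2.2 + q.2.1 := by
        by_contra hc
        have : (q.2.2 + q.2.1) * k ≤ (u / k) * k := Nat.mul_le_mul_right k (by omega)
        omega
      rw [hx2 _ h6 h5] at hxu
      exact Bool.false_ne_true hxu
  have hsecond : (∑ j : Fin k, ∑ d ∈ Ico 2 n, ∑ t ∈ range (n - d),
        (if x j t = true ∧ (∀ i < t + d, t < i → x j i = false) ∧ x j (t + d) = true then
          (1 : ℝ) / ((d : ℝ) - 1) else 0)) = ∑ q ∈ Ts, F (φ q) := by
    have h1 : ∑ q ∈ Ts, F (φ q) = ∑ j : Fin k, ∑ d ∈ Ico 2 n, ∑ t ∈ range n,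
        (if Pt (j, (d, t)) then (1 : ℝ) / ((d : ℝ) - 1) else 0) := by
      rw [sum_filter, sum_product]
      refine sum_congr rfl fun j _ => ?_
      rw [sum_product]
      refine sum_congr rfl fun d _ => sum_congr rfl fun t _ => ?_
      rw [hF]
    rw [h1]
    refine sum_congr rfl fun j _ => sum_congr rfl fun d _ => ?_
    have h2 : range (n - d) = (range n).filter (fun t => t < n - d) := by
      ext t
      simp only [mem_range, mem_filter]
      omega
    rw [h2, sum_filter]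
    refine sum_congr rfl fun t _ => ?_
    by_cases h3 : t < n - d
    · rw [if_pos h3]
      by_cases h4 : x j t = true ∧ (∀ i < t + d, t < i → x j i = false) ∧ x j (t + d) = true
      · rw [if_pos h4, if_pos (show Pt (j, (d, t)) from ⟨h3, h4⟩)]
      · rw [if_neg h4, if_neg (show ¬ Pt (j, (d, t)) from fun h => h4 h.2)]
    · rw [if_neg h3, if_neg (show ¬ Pt (j, (d, t)) from fun h => h3 h.1)]
  have hle : ∑ q ∈ Ts, F (φ q) ≤ ∑ q ∈ ret k O, F q := by
    rw [← sum_image (f := F) hinj]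
    refine sum_le_sum_of_subset_of_nonneg hsub ?_
    intro q hq _
    have h1 := (mem_filter.1 hq).2.1
    have h2 : 2 ≤ (q.2 - q.1) / k := by
      rw [Nat.le_div_iff_mul_le hk]
      omega
    have h3 : (2 : ℝ) ≤ (((q.2 - q.1) / k : ℕ) : ℝ) := by exact_mod_cast h2
    show 0 ≤ 1 / ((((q.2 - q.1) / k : ℕ) : ℝ) - 1)
    refine div_nonneg zero_le_one ?_
    linarith
  rw [hsecond]
  exact (add_le_add hfirst hle).trans h0

end Pool.Agent.R130.AV.Log
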