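import Pool.Agent.R130.AV.Defs

/-!
# The logarithmic upper bound: definitions and statements of the pieces
-/

set_option autoImplicit false

open MeasureTheory Finset

namespace Pool.Agent.R130.AV.Log

/-- counted pairs of `S` for the modulus `K` and the priority `pr` (small = high priority): same
class mod `K`, distance at least `2 K`, and all elements in between have lower priority -/
def cnt (K : ℕ) (pr : ℕ → ℕ) (S : Finset ℕ) : Finset (ℕ × ℕ) :=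
  (S ×ˢ S).filter (fun q => q.1 + 2 * K ≤ q.2 ∧ q.1 % K = q.2 % K ∧
    ∀ u ∈ S, q.1 < u → u < q.2 → pr q.1 < pr u)

/-- L1 -/
def StmDet : Prop :=
  ∀ (K : ℕ) (pr : ℕ → ℕ) (S : Finset ℕ) (a e : ℕ), 0 < K → a ∈ S → (∀ x ∈ S, a ≤ x) →
    (∀ x ∈ S, pr a ≤ pr x) → (∀ x ∈ S, ∀ y ∈ S, pr x = pr y ↔ x % K = y % K) →
    (∀ x ∈ S, ∀ y ∈ S, x < y → x + K ≤ y) → (∀ x ∈ S, x + K < e) →
    a + (S.card + (cnt K pr S).card) * K < e

/-- return pairs of a set `O` of turns: same walker, distance at least `2 k`, nothing of the same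
walker in between -/
def ret (k : ℕ) (O : Finset ℕ) : Finset (ℕ × ℕ) :=
  (O ×ˢ O).filter (fun q => q.1 + 2 * k ≤ q.2 ∧ q.1 % k = q.2 % k ∧
    ∀ u ∈ O, q.1 < u → u < q.2 → u % k ≠ q.1 % k)

/-- the return pairs such that all walkers with a one in between have lower priority -/
def retP (k : ℕ) (pr : ℕ → ℕ) (O : Finset ℕ) : Finset (ℕ × ℕ) :=
  (ret k O).filter (fun q => ∀ u ∈ O, q.1 < u → u < q.2 → pr (q.1 % k) < pr (u % k))

/-- L2 -/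
def StmDetN : Prop :=
  ∀ (k n : ℕ) (O : Finset ℕ) (pr : ℕ → ℕ), 0 < k → (∀ i < k, ∀ j < k, pr i = pr j → i = j) →
    (∀ x ∈ O, x < n * k) → (∀ x ∈ O, ∀ y ∈ O, x < y → x + k ≤ y) →
    O.card + (retP k pr O).card ≤ n

/-- L3 -/
def StmPerm : Prop :=
  ∀ (k : ℕ) (T : Finset (Fin k)) (j : Fin k), j ∈ T →
    (univ.filter (fun σ : Equiv.Perm (Fin k) => ∀ i ∈ T, i ≠ j → σ j < σ i)).card * T.card =
      k.factorial

/-- L4 -/
def StmAvg : Prop :=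
  ∀ (k n : ℕ) (O : Finset ℕ), 0 < k → (∀ x ∈ O, x < n * k) →
    (∀ x ∈ O, ∀ y ∈ O, x < y → x + k ≤ y) →
    (O.card : ℝ) + ∑ q ∈ ret k O, 1 / ((((q.2 - q.1) / k : ℕ) : ℝ) - 1) ≤ n

/-- L5 (deterministic inequality for a trajectory) -/
def StmX : Prop :=
  ∀ (k n : ℕ) (x : Fin k → ℕ → Bool), 0 < k →
    (∀ (t t' : ℕ) (j j' : Fin k), t * k + j < t' * k + j' →
      t' * k + j' < t * k + j + k → ¬ (x j t = true ∧ x j' t' = true)) →
    (∑ j : Fin k, ∑ t ∈ range n, (if x j t = true then (1 : ℝ) else 0)) +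
      ∑ j : Fin k, ∑ d ∈ Ico 2 n, ∑ t ∈ range (n - d),
        (if x j t = true ∧ (∀ i < t + d, t < i → x j i = false) ∧ x j (t + d) = true then
          (1 : ℝ) / ((d : ℝ) - 1) else 0) ≤ n

/-- L6 -/
def StmPat : Prop :=
  ∀ (Ω : Type) (_ : MeasurableSpace Ω) (μ : Measure Ω) (_ : IsProbabilityMeasure μ)
    (X : ℕ → Ω → Bool) (p : ℝ), (∀ t, Measurable (X t)) →
    (∀ (n : ℕ) (y : Fin n → Bool),
      μ.real {ω | ∀ i : Fin n, X i ω = y i} = ∏ i, (if y i = true then p else 1 - p)) →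
    (∀ t, μ.real {ω | X t ω = true} = p) ∧
    ∀ t d : ℕ, 1 ≤ d → μ.real {ω | X t ω = true ∧ (∀ i < t + d, t < i → X i ω = false) ∧
      X (t + d) ω = true} = p ^ 2 * (1 - p) ^ (d - 1)

/-- L7 -/
def StmProb : Prop :=
  ∀ (k n : ℕ) (p : ℝ), 0 < k → Coupling k p →
    (k : ℝ) * ((n : ℝ) * p +
      ∑ d ∈ Ico 2 n, ((n : ℝ) - d) * (p ^ 2 * (1 - p) ^ (d - 1)) / ((d : ℝ) - 1)) ≤ n

/-- L8 -/
def StmAna : Prop :=
  ∀ (k : ℕ) (p : ℝ), 0 < p → p < 1 →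
    (∀ n : ℕ, (k : ℝ) * ((n : ℝ) * p +
      ∑ d ∈ Ico 2 n, ((n : ℝ) - d) * (p ^ 2 * (1 - p) ^ (d - 1)) / ((d : ℝ) - 1)) ≤ n) →
    (k : ℝ) * p * (1 + p * Real.log (1 / p)) ≤ 1

end Pool.Agent.R130.AV.Log
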