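import Pool.Agent.R130.AV.Defs

set_option autoImplicit false

open MeasureTheory Finset Filter Topology

namespace Pool.Agent.R130.AV

theorem coupling_of_wt (hC : StmChain) (hT : StmThin) {k T : ℕ} {p δ : ℝ} {ρ e : ℕ → ℝ}
    (hW : Wt k T p δ ρ e) (hp : 0 < p) (hD : StmDet) : Coupling k p := by
  obtain ⟨μ₁, hμ₁, hmeas, hcond⟩ := hC k T p δ ρ e hW
  obtain ⟨Ω, mΩ, μ, Y, f, hμ, hYm, hYw, hYf⟩ := hT (Fin k) (ℕ → Inn) inferInstance μ₁
    (fun j t => Xw k T j t) p hμ₁ hp (fun j t => hmeas j t)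
    (fun j m x => hcond j j.2 m x)
  refine ⟨Ω, mΩ, μ, Y, hμ, hYm, hYw, Filter.Eventually.of_forall ?_⟩
  intro ω t t' j j' h1 h2 ⟨h3, h4⟩
  have h5 := hYf ω j t h3
  have h6 := hYf ω j' t' h4
  simp only [Xw, decide_eq_true_eq] at h5 h6
  have hj := j.2
  have hj' := j'.2
  rcases lt_trichotomy t t' with h | h | h
  · -- t < t'
    rcases Nat.lt_or_ge (t + 1) t' with h7 | h7
    · have h8 : (t + 2) * k ≤ t' * k := Nat.mul_le_mul_right k (by omega)
      have h9 : (t + 2) * k = t * k + k + k := by ring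
      omega
    · have h8 : t' = t + 1 := by omega
      subst h8
      have h9 : (t + 1) * k = t * k + k := by ring
      have h10 := (hD k (f ω)).2.1 (T + 1 + t) j j' h5 h6
      omega
  · subst h
    rw [h5] at h6
    have h7 : (j : ℕ) = j' := by injection h6
    omega
  · have h8 : (t' + 1) * k ≤ t * k := Nat.mul_le_mul_right k (by omega)
    have h9 : (t' + 1) * k = t' * k + k := by ring
    omega

theorem bdd (k : ℕ) : BddAbove {p : ℝ | 0 ≤ p ∧ p ≤ 1 ∧ Coupling k p} :=
  ⟨1, fun _ hp => hp.2.1⟩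

theorem zero_coupling (k : ℕ) : Coupling k 0 := by
  refine ⟨Unit, inferInstance, Measure.dirac (), fun _ _ _ => false, inferInstance,
    fun _ _ => measurable_const, ?_, ?_⟩
  · intro j n y
    by_cases hy : ∀ i : Fin n, y i = false
    · have h1 : {ω : Unit | ∀ i : Fin n, (fun (_ : Fin k) (_ : ℕ) (_ : Unit) => false) j i ω = y i}
          = Set.univ := by
        ext ω
        simp [hy]
      rw [h1]
      simp [hy]
    · push Not at hy
      obtain ⟨i, hi⟩ := hy
      have hi' : y i = true := by simpa using hi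
      have h1 : {ω : Unit | ∀ i : Fin n, (fun (_ : Fin k) (_ : ℕ) (_ : Unit) => false) j i ω = y i}
          = ∅ := by
        ext ω
        simp only [Set.mem_setOf_eq, Set.mem_empty_iff_false, iff_false, not_forall]
        exact ⟨i, by simp [hi']⟩
      rw [h1, measureReal_empty]
      symm
      apply Finset.prod_eq_zero (Finset.mem_univ i)
      simp [hi']
  · refine Filter.Eventually.of_forall ?_
    intro ω t t' j j' _ _ h
    simp at h

theorem pk_le (hU : StmUB) (k : ℕ) : (k : ℝ) * pk k ≤ 1 := by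
  rcases Nat.eq_zero_or_pos k with rfl | hk
  · simp
  · have hk' : (0 : ℝ) < k := by exact_mod_cast hk
    have h1 : pk k ≤ 1 / k := by
      apply csSup_le
      · exact ⟨0, le_rfl, zero_le_one, zero_coupling k⟩
      · rintro p ⟨_, _, hp⟩
        rw [le_div_iff₀ hk', mul_comm]
        exact hU k p hp
    calc (k : ℝ) * pk k ≤ k * (1 / k) := by gcongr
      _ = 1 := by field_simp

theorem main (hC : StmChain) (hT : StmThin) (hD : StmDet) (hP : StmParam) (hU : StmUB) :
    Tendsto (fun k : ℕ => (k : ℝ) * pk k) atTop (𝓝 1) := by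
  rw [Metric.tendsto_atTop]
  intro ε hε
  set η : ℝ := min (ε / 2) (1 / 2) with hη
  have hη0 : 0 < η := by positivity
  have hη1 : η < 1 := (min_le_right _ _).trans_lt (by norm_num)
  have hηε : η < ε := (min_le_left _ _).trans_lt (by linarith)
  obtain ⟨k₀, hk₀, h⟩ := hP η hη0 hη1
  refine ⟨k₀, fun k hk => ?_⟩
  have hkp : 0 < k := by omega
  have hk' : (0 : ℝ) < k := by exact_mod_cast hkp
  have hk1 : (1 : ℝ) ≤ k := by exact_mod_cast hkp
  obtain ⟨T, δ, ρ, e, hW⟩ := h k hk
  have hp : 0 < (1 - η) / k := by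
    apply div_pos _ hk'
    linarith
  have hcp := coupling_of_wt hC hT hW hp hD
  have h1 : (1 - η) / k ≤ pk k := by
    apply le_csSup (bdd k)
    refine ⟨hp.le, ?_, hcp⟩
    rw [div_le_one hk']
    linarith
  have h2 : 1 - η ≤ (k : ℝ) * pk k := by
    calc 1 - η = (k : ℝ) * ((1 - η) / k) := by field_simp
      _ ≤ (k : ℝ) * pk k := by gcongr
  have h3 := pk_le hU k
  rw [Real.dist_eq, abs_lt]
  constructor <;> linarith

theorem pk_two_le (h2 : StmTwo) : pk 2 ≤ 1 / 3 := by
  apply csSup_le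
  · exact ⟨0, le_rfl, zero_le_one, zero_coupling 2⟩
  · rintro p ⟨hp0, _, hp⟩
    exact h2 p hp0 hp

end Pool.Agent.R130.AV
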