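import Pool.Agent.R130.AV.Defs

/-!
# An upper bound for all `k ≥ 2` (helper260)

Walkers `j < k - 1`: no two consecutive zeros in the rounds `0, 1, 2`; walker `k - 1`: a one in
round `0` or `1`. These `k` events are pairwise disjoint.
-/

set_option autoImplicit false

open MeasureTheory Finset

namespace Pool.Agent.R130.AV

theorem ub3 (k : ℕ) (p : ℝ) (hk : 2 ≤ k) (hC : Coupling k p) :
    ((k : ℝ) - 1) * (p + p ^ 2 - p ^ 3) ≤ (1 - p) ^ 2 := by
  classical
  obtain ⟨Ω, mΩ, μ, X, hP, hM, hL, hA⟩ := hC
  -- probability of a set of words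
  have hW : ∀ (j : Fin k) (n : ℕ) (S : Finset (Fin n → Bool)),
      μ.real {ω | (fun i : Fin n => X j i ω) ∈ S} =
        ∑ y ∈ S, ∏ i, (if y i = true then p else 1 - p) := by
    intro j n S
    have e : {ω | (fun i : Fin n => X j i ω) ∈ S} =
        ⋃ y ∈ S, {ω | ∀ i : Fin n, X j i ω = y i} := by
      ext ω
      simp only [Set.mem_setOf_eq, Set.mem_iUnion, exists_prop]
      constructor
      · intro h
        exact ⟨_, h, fun i => rfl⟩
      · rintro ⟨y, hy, h⟩
        have : (fun i : Fin n => X j i ω) = y := funext h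
        rw [this]; exact hy
    rw [e, measureReal_biUnion_finset]
    · exact Finset.sum_congr rfl fun y _ => hL j n y
    · intro y _ y' _ hne
      refine Set.disjoint_left.mpr fun ω h1 h2 => hne ?_
      funext i
      rw [← h1 i, ← h2 i]
    · intro y _
      have : {ω | ∀ i : Fin n, X j i ω = y i} = ⋂ i : Fin n, X j i ⁻¹' {y i} := by
        ext ω; simp
      rw [this]
      exact MeasurableSet.iInter fun i => hM j i (measurableSet_singleton _)
  let B : Fin k → Set Ω := fun j =>
    if j.val + 1 = k then {ω | X j 0 ω = true ∨ X j 1 ω = true}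
    else {ω | (X j 0 ω = true ∨ X j 1 ω = true) ∧ (X j 1 ω = true ∨ X j 2 ω = true)}
  have hm : ∀ (j : Fin k) (t : ℕ), MeasurableSet {ω | X j t ω = true} := fun j t =>
    hM j t (measurableSet_singleton true)
  have hBm : ∀ j, MeasurableSet (B j) := by
    intro j
    simp only [B]
    split_ifs
    · exact (hm j 0).union (hm j 1)
    · exact ((hm j 0).union (hm j 1)).inter ((hm j 1).union (hm j 2))
  have hB1 : ∀ j : Fin k, j.val + 1 = k → μ.real (B j) = 1 - (1 - p) ^ 2 := by
    intro j hj
    have e : B j = {ω | (fun i : Fin 2 => X j i ω) ∈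
        ({![true, false], ![false, true], ![true, true]} : Finset (Fin 2 → Bool))} := by
      ext ω
      simp only [B, hj, if_true, Set.mem_setOf_eq, Finset.mem_insert, Finset.mem_singleton,
        funext_iff, Fin.forall_fin_two, Matrix.cons_val_zero, Matrix.cons_val_one, Fin.val_zero,
        Fin.val_one]
      cases X j 0 ω <;> cases X j 1 ω <;> simp
    rw [e, hW, Finset.sum_insert (by decide), Finset.sum_insert (by decide), Finset.sum_singleton]
    simp only [Fin.prod_univ_two, Matrix.cons_val_zero, Matrix.cons_val_one, if_true,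
      Bool.false_eq_true, if_false]
    ring
  have hB2 : ∀ j : Fin k, j.val + 1 ≠ k → μ.real (B j) = p + p ^ 2 - p ^ 3 := by
    intro j hj
    have e : B j = {ω | (fun i : Fin 3 => X j i ω) ∈
        ({![false, true, false], ![true, true, false], ![true, false, true], ![false, true, true],
          ![true, true, true]} : Finset (Fin 3 → Bool))} := by
      ext ω
      simp only [B, hj, if_false, Set.mem_setOf_eq, Finset.mem_insert, Finset.mem_singleton,
        funext_iff, Fin.forall_fin_succ, Fin.forall_fin_two]
      have h0 : ((0 : Fin 3) : ℕ) = 0 := rfl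
      have h1 : ((Fin.succ (0 : Fin 2) : Fin 3) : ℕ) = 1 := rfl
      have h2 : ((Fin.succ (1 : Fin 2) : Fin 3) : ℕ) = 2 := rfl
      simp
      cases X j 0 ω <;> cases X j 1 ω <;> cases X j 2 ω <;> simp
    rw [e, hW, Finset.sum_insert (by decide), Finset.sum_insert (by decide),
      Finset.sum_insert (by decide), Finset.sum_insert (by decide), Finset.sum_singleton]
    simp [Fin.prod_univ_three]
    ring
  -- almost sure disjointness
  have hdis : ∀ j j' : Fin k, (j : ℕ) < j' → AEDisjoint μ (B j) (B j') := by
    intro j j' hjj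
    have h1 : ∀ᵐ ω ∂μ, ω ∉ (B j ∩ B j') := by
      filter_upwards [hA] with ω hω h
      have hj' := j'.2
      have same : ∀ t, X j t ω = true → X j' t ω = true → False := fun t h1 h2 =>
        hω t t j j' (by omega) (by omega) ⟨h1, h2⟩
      have next : ∀ t, X j' t ω = true → X j (t + 1) ω = true → False := fun t h1 h2 =>
        hω t (t + 1) j' j (by rw [Nat.add_mul]; omega) (by rw [Nat.add_mul]; omega) ⟨h1, h2⟩
      have hj : j.val + 1 ≠ k := by omega
      have hBj : (X j 0 ω = true ∨ X j 1 ω = true) ∧ (X j 1 ω = true ∨ X j 2 ω = true) := by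
        have := h.1
        simp only [B, hj, if_false] at this
        exact this
      have hBj' : X j' 0 ω = true ∨ X j' 1 ω = true := by
        have := h.2
        simp only [B] at this
        split_ifs at this
        · exact this
        · exact this.1
      rcases hBj' with h2 | h2
      · rcases hBj.1 with h3 | h3
        · exact same 0 h3 h2
        · exact next 0 h2 h3
      · rcases hBj.2 with h3 | h3
        · exact same 1 h3 h2
        · exact next 1 h2 h3
    have h2 := ae_iff.mp h1
    have h3 : {a | ¬ a ∉ (B j ∩ B j')} = B j ∩ B j' := by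
      ext a
      exact not_not
    rw [h3] at h2
    exact h2
  have hd : Pairwise (Function.onFun (AEDisjoint μ) B) := by
    intro j j' hne
    rcases Nat.lt_or_gt_of_ne (fun h => hne (Fin.ext h)) with h | h
    · exact hdis j j' h
    · exact (hdis j' j h).symm
  have h1 := measure_iUnion₀ hd (fun j => (hBm j).nullMeasurableSet)
  have h2 : μ (⋃ j : Fin k, B j) ≤ 1 := prob_le_one
  rw [h1, tsum_fintype] at h2
  have h3 : ∑ j : Fin k, μ.real (B j) ≤ 1 := by
    unfold Measure.real
    rw [← ENNReal.toReal_sum (fun j _ => measure_ne_top μ _)]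
    exact ENNReal.toReal_le_of_le_ofReal (by norm_num) (by simpa using h2)
  obtain ⟨m, rfl⟩ : ∃ m, k = m + 1 := ⟨k - 1, by omega⟩
  rw [Fin.sum_univ_castSucc, hB1 (Fin.last m) (by simp)] at h3
  have h4 : ∀ i : Fin m, μ.real (B i.castSucc) = p + p ^ 2 - p ^ 3 := fun i =>
    hB2 _ (by have := i.2; simp only [Fin.val_castSucc]; omega)
  simp only [h4, Finset.sum_const, Finset.card_univ, Fintype.card_fin, nsmul_eq_mul] at h3
  push_cast
  linarith

end Pool.Agent.R130.AV
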